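import Pool.Agent.V8H52.LD.RS0

/-!
# `RealStm 1`
-/

set_option autoImplicit false
set_option maxHeartbeats 400000

namespace Pool.Agent.V8H52.LD

open Finset MeasureTheory Pool.Agent.V8H55.LD

/-- the parameter bounds -/
lemma params {u : ℝ} (hu : 10 ≤ u) : 2 ≤ Real.log u ∧ Real.log u / 2 ≤ ⌊Real.log u⌋₊ ∧ (2 : ℝ) ^ ⌊Real.log u⌋₊ ≤ u := by
  have hupos : 0 < u := by linarith
  have hlogu : 2 ≤ Real.log u := by
    rw [Real.le_log_iff_exp_le hupos]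
    have h1 : Real.exp 2 = Real.exp 1 * Real.exp 1 := by rw [← Real.exp_add]; norm_num
    rw [h1]
    have h2 := Real.exp_one_lt_d9
    have h3 := Real.exp_pos 1
    nlinarith
  refine ⟨hlogu, ?_, ?_⟩
  · have := (Nat.lt_floor_add_one (Real.log u)).le
    linarith
  · have h1 : (2 : ℝ) ^ ⌊Real.log u⌋₊ ≤ Real.exp 1 ^ ⌊Real.log u⌋₊ :=
      pow_le_pow_left₀ (by norm_num) (by linarith [Real.exp_one_gt_d9]) _
    refine h1.trans ?_
    rw [← Real.exp_nat_mul, mul_one, ← Real.le_log_iff_exp_le hupos]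
    exact Nat.floor_le (by linarith)

lemma le_pow_aux {u : ℝ} (hu : 1 ≤ u) {n : ℕ} (hn : 1 ≤ n) : u ≤ u ^ n := by
  calc u = u ^ 1 := by ring
    _ ≤ u ^ n := pow_le_pow_right₀ hu hn

lemma M_aux {u δ H : ℝ} {K I : ℕ} (hu : 10 ≤ u) (hδ : δ = 1 / u ^ 18) (hH : u ^ 20 / 10 ≤ H)
    (hK : 5 * (K : ℝ) ^ 2 ≤ u) (h2I : (2 : ℝ) ^ I ≤ u) : ∀ i < I, (K : ℝ) ^ 2 ≤ 2 * (δ / 2 ^ i) * H := by
  intro i hi
  have hupos : 0 < u := by linarith
  have h1 : (2 : ℝ) ^ i ≤ u := (pow_le_pow_right₀ (by norm_num) hi.le).trans h2I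
  have h3 : 1 / (u ^ 18 * u) ≤ δ / 2 ^ i := by
    rw [hδ, div_div]
    exact one_div_le_one_div_of_le (by positivity) (mul_le_mul_of_nonneg_left h1 (by positivity))
  calc (K : ℝ) ^ 2 ≤ u / 5 := by linarith
    _ = 2 * (1 / (u ^ 18 * u)) * (u ^ 20 / 10) := by field_simp; ring
    _ ≤ 2 * (δ / 2 ^ i) * H := by
        have h4 : 0 ≤ 1 / (u ^ 18 * u) := by positivity
        have h5 : 0 ≤ δ / 2 ^ i := h4.trans h3
        exact mul_le_mul (by linarith) hH (by positivity) (by linarith)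

lemma int_aux {u δ τ H ρ ε : ℝ} (hu : 10 ≤ u) (hδ : δ = 1 / u ^ 18) (hτ : τ = 1 / u ^ 30) 
    (hH : H ≤ u ^ 20) (hε : 0 < ε) (hεu : 40 / ε ≤ u) (hρ : 2 * ρ ≤ ε / 2) :
    2 * τ * H + 2 * δ * H / u ^ 5 + 4 * δ ^ 2 * (H * (1 + 3 * u ^ 10)) + 2 * ρ ≤ ε := by
  have hupos : 0 < u := by linarith
  have hu1 : 1 ≤ u := by linarith
  have hδ0 : 0 < δ := by rw [hδ]; positivity
  have hτ0 : 0 < τ := by rw [hτ]; positivity
  have k1 : 2 * τ * H ≤ 2 / u := by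
    calc 2 * τ * H ≤ 2 * τ * u ^ 20 := mul_le_mul_of_nonneg_left hH (by positivity)
      _ = 2 / u ^ 10 := by rw [hτ]; field_simp
      _ ≤ 2 / u := div_le_div_of_nonneg_left (by norm_num) hupos (le_pow_aux hu1 (by norm_num))
  have k2 : 2 * δ * H / u ^ 5 ≤ 2 / u := by
    calc 2 * δ * H / u ^ 5 ≤ 2 * δ * u ^ 20 / u ^ 5 := by
          apply div_le_div_of_nonneg_right _ (by positivity)
          exact mul_le_mul_of_nonneg_left hH (by positivity)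
      _ = 2 / u ^ 3 * u ^ 0 := by rw [hδ]; field_simp
      _ ≤ 2 / u := by
          rw [pow_zero, mul_one]
          exact div_le_div_of_nonneg_left (by norm_num) hupos (le_pow_aux hu1 (by norm_num))
  have k3 : 4 * δ ^ 2 * (H * (1 + 3 * u ^ 10)) ≤ 16 / u := by
    have h10 : (1 : ℝ) ≤ u ^ 10 := one_le_pow₀ hu1
    calc 4 * δ ^ 2 * (H * (1 + 3 * u ^ 10)) ≤ 4 * δ ^ 2 * (u ^ 20 * (4 * u ^ 10)) := by
          apply mul_le_mul_of_nonneg_left _ (by positivity)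
          exact mul_le_mul hH (by linarith) (by positivity) (by positivity)
      _ = 16 / u ^ 6 := by rw [hδ]; field_simp; ring
      _ ≤ 16 / u := div_le_div_of_nonneg_left (by norm_num) hupos (le_pow_aux hu1 (by norm_num))
  have k4 : 20 / u ≤ ε / 2 := by
    rw [div_le_iff₀ hε] at hεu
    rw [div_le_iff₀ hupos]
    linarith
  have k5 : 2 / u + 2 / u + 16 / u = 20 / u := by ring
  linarith

lemma measure_aux {G Q K I : ℕ} {S ρ τ B δ ε : ℝ} (P : (Fin 1 → ℝ) → Prop) (hB : 0 < B) (hρ : 0 < ρ)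
    (hWi : Integrable (WW G Q K I S ρ τ B δ) mu) (hWε : ∫ y, WW G Q K I S ρ τ B δ y ∂mu ≤ ε)
    (hpt : ∀ x : Fin 1 → ℝ, WW G Q K I S ρ τ B δ (x 0) < 1 → P x) :
    volume {x : Fin 1 → ℝ | (∀ i, x i ∈ Set.Icc (0 : ℝ) 1) ∧ ¬ P x} ≤ ENNReal.ofReal ε := by
  have hsub : {x : Fin 1 → ℝ | (∀ i, x i ∈ Set.Icc (0 : ℝ) 1) ∧ ¬ P x} ⊆
      (MeasurableEquiv.funUnique (Fin 1) ℝ) ⁻¹' ({y | 1 ≤ WW G Q K I S ρ τ B δ y} ∩ Set.Icc 0 1) := by
    rintro x ⟨h1, h2⟩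
    refine ⟨?_, h1 0⟩
    show 1 ≤ WW G Q K I S ρ τ B δ (x 0)
    by_contra hcon
    push Not at hcon
    exact h2 (hpt x hcon)
  refine (measure_mono hsub).trans ?_
  refine le_of_eq_of_le ((volume_preserving_funUnique (Fin 1) ℝ).measure_preimage_equiv
    ({y | 1 ≤ WW G Q K I S ρ τ B δ y} ∩ Set.Icc 0 1)) ?_
  have e1 : volume ({y | 1 ≤ WW G Q K I S ρ τ B δ y} ∩ Set.Icc 0 1) =
      mu {y | 1 ≤ WW G Q K I S ρ τ B δ y} := by
    unfold mu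
    rw [Measure.restrict_apply' measurableSet_Icc]
  rw [e1]
  have e2 := mul_meas_ge_le_integral_of_nonneg (μ := mu) (f := WW G Q K I S ρ τ B δ)
    (Filter.Eventually.of_forall fun y => WW_nonneg hB hρ) hWi 1
  rw [one_mul] at e2
  have e3 : mu.real {y | 1 ≤ WW G Q K I S ρ τ B δ y} ≤ ε := e2.trans hWε
  rw [← ofReal_measureReal (measure_ne_top _ _)]
  exact ENNReal.ofReal_le_ofReal e3

theorem realStm_one : RealStm 1 := by
  intro ε hε Z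
  obtain ⟨s, hs⟩ := exists_nat_ge (8 / ε + 4)
  have hs4r : (4 : ℝ) ≤ s := by
    have : 0 < 8 / ε := by positivity
    linarith
  have hs4 : 4 ≤ s := by exact_mod_cast hs4r
  have hs0 : (0 : ℝ) < s := by linarith
  obtain ⟨K, hK⟩ : ∃ K : ℕ, K = s ^ 2 := ⟨_, rfl⟩
  have hKr : (K : ℝ) = (s : ℝ) ^ 2 := by rw [hK]; push_cast; ring
  have hKpos : 0 < K := by rw [hK]; positivity
  have hK4 : 4 ≤ K := by
    rw [hK, sq]
    exact le_trans hs4 (Nat.le_mul_of_pos_left _ (by omega))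
  have hK0 : (0 : ℝ) < K := by exact_mod_cast hKpos
  obtain ⟨ρ, hρdef⟩ : ∃ ρ : ℝ, ρ = 2 / s := ⟨_, rfl⟩
  have hρ0 : 0 < ρ := by rw [hρdef]; positivity
  have hρ2 : ρ ≤ 1 / 2 := by rw [hρdef, div_le_iff₀ hs0]; linarith
  have hρK : ρ ^ 2 * K = 4 := by rw [hρdef, hKr]; field_simp; norm_num
  have hρε : 2 * ρ ≤ ε / 2 := by
    have h1 : 8 / ε ≤ s := by linarith
    rw [div_le_iff₀ hε] at h1
    rw [hρdef]
    have h2 : 2 * (2 / (s : ℝ)) = 4 / s := by ring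
    rw [h2, div_le_iff₀ hs0]
    linarith
  refine ⟨1 / (800 * K), by positivity, (40 / ε + 5 * K ^ 2 + 2 * Z + 10) ^ 20, ?_⟩
  intro L hL g hg1 hgL α hα
  obtain ⟨u0, hu0⟩ : ∃ u0 : ℝ, u0 = 40 / ε + 5 * K ^ 2 + 2 * Z + 10 := ⟨_, rfl⟩
  rw [← hu0] at hL
  have p1 : 0 < 40 / ε := by positivity
  have p2 : (0 : ℝ) ≤ 5 * K ^ 2 := by positivity
  have p3 : (0 : ℝ) ≤ 2 * Z := by positivity
  have hu0pos : 0 < u0 := by rw [hu0]; positivity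
  have hL0 : 0 < L := lt_of_lt_of_le (by positivity) hL
  obtain ⟨u, hu⟩ : ∃ u : ℝ, u = L ^ ((1 : ℝ) / 20) := ⟨_, rfl⟩
  have hupos : 0 < u := by rw [hu]; exact Real.rpow_pos_of_pos hL0 _
  have huL : u ^ 20 = L := by
    rw [hu, ← Real.rpow_natCast, ← Real.rpow_mul hL0.le]; norm_num
  have hu0u : u0 ≤ u := by
    rw [← huL] at hL
    exact (pow_le_pow_iff_left₀ hu0pos.le hupos.le (by norm_num)).1 hL
  have b1 : 40 / ε ≤ u := by linarith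
  have b2 : 5 * (K : ℝ) ^ 2 ≤ u := by linarith
  have b3 : 2 * (Z : ℝ) ≤ u := by linarith
  have b4 : 10 ≤ u := by linarith
  have hu1 : 1 ≤ u := by linarith
  have hhalf : L ^ ((1 : ℝ) / 2) = u ^ 10 := by
    rw [← huL, ← Real.rpow_natCast u 20, ← Real.rpow_mul hupos.le, ← Real.rpow_natCast u 10]; norm_num
  have hquart : L ^ ((1 : ℝ) / 4) = u ^ 5 := by
    rw [← huL, ← Real.rpow_natCast u 20, ← Real.rpow_mul hupos.le, ← Real.rpow_natCast u 5]; norm_num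
  obtain ⟨Q, hQ⟩ : ∃ Q : ℕ, Q = ⌊Real.exp (L / 10)⌋₊ := ⟨_, rfl⟩
  obtain ⟨δ, hδ⟩ : ∃ δ : ℝ, δ = 1 / u ^ 18 := ⟨_, rfl⟩
  obtain ⟨τ, hτ⟩ : ∃ τ : ℝ, τ = 1 / u ^ 30 := ⟨_, rfl⟩
  obtain ⟨S, hS⟩ : ∃ S : ℝ, S = Real.exp (3 * u ^ 10) := ⟨_, rfl⟩
  obtain ⟨I, hI⟩ : ∃ I : ℕ, I = ⌊Real.log u⌋₊ := ⟨_, rfl⟩
  have hδ0 : 0 < δ := by rw [hδ]; positivity
  have hτ0 : 0 < τ := by rw [hτ]; positivity
  have hδ2 : δ ≤ 1 / 2 := by
    rw [hδ]
    exact one_div_le_one_div_of_le (by norm_num) (le_trans (by linarith) (le_pow_aux hu1 (n := 18) (by norm_num)))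
  have hS1 : 1 ≤ S := by rw [hS]; exact Real.one_le_exp (by positivity)
  obtain ⟨hH1, hH2⟩ := HH_bounds hL0.le
  rw [← hQ] at hH1 hH2
  have hH0 : 0 < HH Q := lt_of_lt_of_le (by positivity) hH1
  have hL10 : 10 ≤ L := by
    rw [← huL]; exact b4.trans (le_pow_aux hu1 (by norm_num))
  have hHu : HH Q ≤ u ^ 20 := by rw [huL]; linarith
  obtain ⟨hlogu, hI1, h2I⟩ := params b4
  rw [← hI] at hI1 h2I
  have hIpos : 0 < I := by
    have : (0 : ℝ) < I := by linarith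
    exact_mod_cast this
  have hB0 : 0 < u ^ 5 := by positivity
  have hM := M_aux (K := K) (I := I) b4 hδ (H := HH Q) (by rw [huL]; exact hH1) b2 h2I
  obtain ⟨h, hh⟩ : ∃ h : ℕ, h = Nat.gcd g (α 0).natAbs := ⟨_, rfl⟩
  have hhg : h ∣ g := by rw [hh]; exact Nat.gcd_dvd_left _ _
  have hhα : (h : ℤ) ∣ α 0 := by rw [hh]; exact Int.natCast_dvd.2 (Nat.gcd_dvd_right _ _)
  have hh0 : 0 < h := by rw [hh]; exact Nat.gcd_pos_of_pos_left _ hg1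
  have hhZ : h ≤ Z := hα h hhg (fun i => by rw [Subsingleton.elim i 0]; exact hhα)
  obtain ⟨G, hG⟩ := hhg
  have hGpos : 0 < G := by
    rcases Nat.eq_zero_or_pos G with h0 | h0
    · rw [h0, mul_zero] at hG; omega
    · exact h0
  obtain ⟨hWi, hWint⟩ := WW_int (G := G) (Q := Q) (K := K) (I := I) (S := S) (τ := τ) (B := u ^ 5) hGpos hδ0 hδ2 hS1
    hτ0.le hB0 hK4 hIpos hH0 hρ0 hρK hM
  have hlogS : Real.log S = 3 * u ^ 10 := by rw [hS, Real.log_exp]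
  rw [hlogS] at hWint
  have hWε := hWint.trans (int_aux b4 hδ hτ hHu hε b1 hρε)
  exact measure_aux (fun x => ∃ V : Finset ((Fin 1 → ℤ) × ℤ), GoodR (1 / (800 * K)) L g α x V) hB0 hρ0 hWi hWε
    fun x hx => by
      obtain ⟨c1, c2, c3, c4⟩ := good_of_lt hGpos hδ0 hτ0 hB0 hKpos hIpos hH0 hρ0 hρ2 hx
      exact pointwise (by linarith) hδ hδ2 hτ hS huL hhalf hquart hGpos hG hh0 hhZ b3 hhα hgL hQ hKpos hI1 hH1
        c1 c2 c3 c4

end Pool.Agent.V8H52.LD
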