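import Mathlib

/-!
# Overlaps of intervals around fractions
-/

set_option autoImplicit false

namespace Pool.Agent.V8H52.LD

open Finset MeasureTheory

/-- positive part -/
noncomputable def pp (x : ℝ) : ℝ := max x 0

/-- the overlap function -/
noncomputable def ga (α β x : ℝ) : ℝ := pp (α + β - x) - pp (|α - β| - x)

lemma D_mono (h u v : ℝ) (hh : 0 ≤ h) (hvu : v ≤ u) :
    h * (pp (u - h) - pp (v - h)) ≤ (pp u ^ 2 - pp (u - h) ^ 2) / 2 - (pp v ^ 2 - pp (v - h) ^ 2) / 2 := by
  unfold pp
  rcases le_total u 0 with hu | hu <;> rcases le_total v 0 with hv | hv <;>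
  rcases le_total (u - h) 0 with hu' | hu' <;> rcases le_total (v - h) 0 with hv' | hv' <;>
  simp only [max_eq_left, max_eq_right, hu, hv, hu', hv'] <;> nlinarith

lemma ga_nonneg {α β x : ℝ} (hα : 0 ≤ α) (hβ : 0 ≤ β) : 0 ≤ ga α β x := by
  have : |α - β| ≤ α + β := by rw [abs_le]; constructor <;> linarith
  unfold ga pp
  have := max_le_max (show |α - β| - x ≤ α + β - x by linarith) (le_refl (0:ℝ))
  linarith

/-- the monotone Riemann sum -/
lemma sum_ga {α β h : ℝ} (hα : 0 ≤ α) (hβ : 0 ≤ β) (hh : 0 ≤ h) (n : ℕ) :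
    ∑ i ∈ range n, h * ga α β (h * ((i : ℝ) + 1)) ≤ 2 * α * β := by
  set P : ℝ → ℝ := fun x => (pp (α + β - x) ^ 2 - pp (|α - β| - x) ^ 2) / 2 with hP
  have hab : |α - β| ≤ α + β := by rw [abs_le]; constructor <;> linarith
  have key : ∀ m : ℕ, ∑ i ∈ range m, h * ga α β (h * ((i : ℝ) + 1)) ≤ P 0 - P (h * m) := by
    intro m
    induction m with
    | zero => simp
    | succ m ih =>
      rw [sum_range_succ]
      have := D_mono h (α + β - h * m) (|α - β| - h * m) hh (by linarith)
      have e1 : α + β - h * m - h = α + β - h * (m + 1) := by ring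
      have e2 : |α - β| - h * m - h = |α - β| - h * (m + 1) := by ring
      rw [e1, e2] at this
      have h3 : h * ga α β (h * ((m : ℝ) + 1)) ≤ P (h * m) - P (h * (m + 1)) := by
        simp only [hP, ga]; linarith
      push_cast
      linarith
  have h0 : P 0 = 2 * α * β := by
    simp only [hP, sub_zero, pp]
    rw [max_eq_left (by linarith), max_eq_left (abs_nonneg _), sq_abs]; ring
  have hn : 0 ≤ P (h * n) := by
    simp only [hP]
    have : pp (|α - β| - h * n) ≤ pp (α + β - h * n) :=
      max_le_max (by linarith) le_rfl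
    have h0 : 0 ≤ pp (|α - β| - h * n) := le_max_right _ _
    nlinarith
  linarith [key n]

/-- the length of the intersection of two intervals -/
lemma vol_inter {c c' α β : ℝ} (hα : 0 ≤ α) (hβ : 0 ≤ β) :
    volume.real (Set.Icc (c - α) (c + α) ∩ Set.Icc (c' - β) (c' + β)) ≤ ga α β |c - c'| := by
  rw [Set.Icc_inter_Icc, Measure.real, Real.volume_Icc, ENNReal.toReal_ofReal']
  unfold ga pp
  apply max_le
  · have h1 : min (c + α) (c' + β) ≤ c + α := min_le_left _ _
    have h2 : min (c + α) (c' + β) ≤ c' + β := min_le_right _ _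
    have h3 : c - α ≤ max (c - α) (c' - β) := le_max_left _ _
    have h4 : c' - β ≤ max (c - α) (c' - β) := le_max_right _ _
    show min (c + α) (c' + β) - max (c - α) (c' - β) ≤ _
    rcases le_total (|α - β| - |c - c'|) 0 with h | h
    · rw [max_eq_right h]
      have := le_max_left (α + β - |c - c'|) 0
      rcases abs_cases (c - c') with h5 | h5 <;> linarith
    · have hab : |α - β| ≤ α + β := by rw [abs_le]; constructor <;> linarith
      rw [max_eq_left h, max_eq_left (show 0 ≤ α + β - |c - c'| by linarith)]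
      rcases abs_cases (α - β) with h5 | h5 <;> linarith
  · have := ga_nonneg (x := |c - c'|) hα hβ
    unfold ga pp at this
    exact this

/-- number of solutions of `p q' - p' q = r` -/
lemma card_sol {G q q' : ℕ} (hq : 0 < q) (r : ℤ) :
    #{z ∈ Icc 1 (G * q) ×ˢ Icc 1 (G * q') | (z.1 : ℤ) * q' - z.2 * q = r} ≤ G * Nat.gcd q q' := by
  set d := Nat.gcd q q' with hd
  have hd0 : 0 < d := Nat.gcd_pos_of_pos_left _ hq
  obtain ⟨a, ha⟩ : d ∣ q := Nat.gcd_dvd_left _ _
  obtain ⟨b, hb⟩ : d ∣ q' := Nat.gcd_dvd_right _ _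
  have ha0 : 0 < a := by
    rcases Nat.eq_zero_or_pos a with h | h
    · rw [h] at ha; omega
    · exact h
  have hcop : Nat.Coprime a b := by
    have h1 : d = d * Nat.gcd a b := by
      conv_lhs => rw [hd, ha, hb]
      exact Nat.gcd_mul_left d a b
    have : Nat.gcd a b = 1 := by
      have h2 : d * Nat.gcd a b = d * 1 := by omega
      exact Nat.eq_of_mul_eq_mul_left hd0 h2
    exact this
  rw [← card_range (G * d)]
  apply card_le_card_of_injOn (fun z => (z.1 - 1) / a)
  · intro z hz
    simp only [coe_filter, mem_product, mem_Icc, Set.mem_ofPred_eq] at hz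
    simp only [coe_range, Set.mem_Iio]
    rw [Nat.div_lt_iff_lt_mul ha0]
    have : G * d * a = G * q := by rw [ha]; ring
    omega
  · intro z hz w hw hzw
    simp only [coe_filter, mem_product, mem_Icc, Set.mem_ofPred_eq] at hz hw
    simp only at hzw
    have e1 : (z.1 : ℤ) * q' - z.2 * q = w.1 * q' - w.2 * q := by rw [hz.2, hw.2]
    have e2 : ((z.1 : ℤ) - w.1) * b = (z.2 - w.2) * a := by
      have : (d : ℤ) * (((z.1 : ℤ) - w.1) * b) = d * ((z.2 - w.2) * a) := by
        rw [ha, hb] at e1
        push_cast at e1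
        linarith
      exact mul_left_cancel₀ (by exact_mod_cast hd0.ne') this
    have e3 : (a : ℤ) ∣ (z.1 : ℤ) - w.1 := by
      have : (a : ℤ) ∣ ((z.1 : ℤ) - w.1) * b := ⟨(z.2 : ℤ) - w.2, by rw [e2]; ring⟩
      exact (IsCoprime.dvd_of_dvd_mul_right (Nat.isCoprime_iff_coprime.2 hcop) this)
    have e4 : (z.1 : ℤ) = w.1 := by
      have h1 := Nat.div_add_mod (z.1 - 1) a
      have h2 := Nat.div_add_mod (w.1 - 1) a
      have h3 := Nat.mod_lt (z.1 - 1) ha0
      have h4 := Nat.mod_lt (w.1 - 1) ha0
      rw [← hzw] at h2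
      obtain ⟨k, hk⟩ := e3
      have h5 : |(z.1 : ℤ) - w.1| < a := by
        rw [abs_lt]; constructor <;> omega
      have h6 : k = 0 := by
        rw [hk, abs_mul, Nat.abs_cast] at h5
        have : |k| < 1 := by
          by_contra h
          push Not at h
          nlinarith
        exact Int.abs_lt_one_iff.1 this
      rw [h6] at hk
      linarith
    have e5 : (z.2 : ℤ) = w.2 := by
      rw [e4] at e2
      have : ((z.2 : ℤ) - w.2) * a = 0 := by rw [← e2]; ring
      rcases mul_eq_zero.1 this with h | h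
      · linarith
      · exact absurd h (by exact_mod_cast ha0.ne')
    exact Prod.ext (by exact_mod_cast e4) (by exact_mod_cast e5)

end Pool.Agent.V8H52.LD
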