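import Pool.Agent.V8H52.LD.A

/-!
# Pairs of different fractions
-/

set_option autoImplicit false

namespace Pool.Agent.V8H52.LD

open Finset MeasureTheory

/-- the points `x` with `q |q G x - p| ≤ δ` -/
noncomputable def A (G : ℕ) (δ : ℝ) (z : ℕ × ℕ) : Set ℝ :=
  Set.Icc ((z.2 : ℝ) / (G * z.1) - δ / (G * z.1 ^ 2)) ((z.2 : ℝ) / (G * z.1) + δ / (G * z.1 ^ 2))

lemma measurableSet_A (G : ℕ) (δ : ℝ) (z : ℕ × ℕ) : MeasurableSet (A G δ z) := measurableSet_Icc

lemma vol_A {G : ℕ} {δ : ℝ} (hδ : 0 ≤ δ) (z : ℕ × ℕ) :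
    volume.real (A G δ z) = 2 * δ / (G * z.1 ^ 2) := by
  have h0 : 0 ≤ δ / (G * (z.1 : ℝ) ^ 2) := by positivity
  unfold A
  rw [Measure.real, Real.volume_Icc, ENNReal.toReal_ofReal (by linarith)]
  ring

lemma mem_A {G : ℕ} {δ : ℝ} {z : ℕ × ℕ} (hG : 0 < G) (hz : 0 < z.1) (x : ℝ) :
    x ∈ A G δ z ↔ z.1 * |z.1 * (G * x) - z.2| ≤ δ := by
  have hG' : (0 : ℝ) < G := by exact_mod_cast hG
  have hz' : (0 : ℝ) < z.1 := by exact_mod_cast hz
  have e : (z.1 : ℝ) * |z.1 * (G * x) - z.2| = (G * z.1 ^ 2) * |x - z.2 / (G * z.1)| := by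
    have : (z.1 : ℝ) * (G * x) - z.2 = (G * z.1) * (x - z.2 / (G * z.1)) := by
      field_simp
    rw [this, abs_mul, abs_of_pos (show (0 : ℝ) < G * z.1 by positivity)]
    ring
  rw [e]
  unfold A
  rw [Set.mem_Icc, ← le_div_iff₀' (show (0 : ℝ) < G * z.1 ^ 2 by positivity), abs_le]
  constructor
  · rintro ⟨h1, h2⟩; constructor <;> linarith
  · rintro ⟨h1, h2⟩; constructor <;> linarith

lemma pair_bound {G q q' : ℕ} {δ : ℝ} (hG : 0 < G) (hq : 0 < q) (hq' : 0 < q') (hδ : 0 ≤ δ) :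
    ∑ z ∈ Icc 1 (G * q) ×ˢ Icc 1 (G * q') with z.1 * q' ≠ z.2 * q,
      volume.real (A G δ (q, z.1) ∩ A G δ (q', z.2)) ≤ 4 * δ ^ 2 / (q * q') := by
  classical
  set d := Nat.gcd q q' with hd
  have hd0 : 0 < d := Nat.gcd_pos_of_pos_left _ hq
  have hGr : (0 : ℝ) < G := by exact_mod_cast hG
  have hqr : (0 : ℝ) < q := by exact_mod_cast hq
  have hqr' : (0 : ℝ) < q' := by exact_mod_cast hq'
  have hdr : (0 : ℝ) < d := by exact_mod_cast hd0
  set α : ℝ := δ / (G * q ^ 2) with hα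
  set β : ℝ := δ / (G * q' ^ 2) with hβ
  set h : ℝ := d / (G * q * q') with hh
  have hα0 : 0 ≤ α := by positivity
  have hβ0 : 0 ≤ β := by positivity
  have hh0 : 0 < h := by positivity
  set S := {z ∈ Icc 1 (G * q) ×ˢ Icc 1 (G * q') | z.1 * q' ≠ z.2 * q} with hS
  set f : ℕ × ℕ → ℕ := fun z => ((z.1 : ℤ) * q' - z.2 * q).natAbs / d - 1 with hf
  have hfz : ∀ z ∈ S, ((z.1 : ℤ) * q' - z.2 * q).natAbs = d * (f z + 1) := by
    intro z hz
    have hne : ((z.1 : ℤ) * q' - z.2 * q) ≠ 0 := by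
      have := (mem_filter.1 hz).2
      intro h0
      apply this
      have : (z.1 : ℤ) * q' = z.2 * q := by linarith
      exact_mod_cast this
    have hdv : d ∣ ((z.1 : ℤ) * q' - z.2 * q).natAbs := by
      rw [← Int.natCast_dvd]
      apply dvd_sub
      · exact Dvd.dvd.mul_left (by exact_mod_cast Nat.gcd_dvd_right q q') _
      · exact Dvd.dvd.mul_left (by exact_mod_cast Nat.gcd_dvd_left q q') _
    obtain ⟨k, hk⟩ := hdv
    have hk0 : 0 < k := by
      rcases Nat.eq_zero_or_pos k with h | h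
      · rw [h, mul_zero, Int.natAbs_eq_zero] at hk; exact absurd hk hne
      · exact h
    simp only [hf]
    rw [hk, Nat.mul_div_cancel_left _ hd0]
    congr 1
    omega
  have hlt : ∀ z ∈ S, f z ∈ range (G * q * q') := by
    intro z hz
    have h1 := hfz z hz
    have h2 := (mem_filter.1 hz).1
    simp only [mem_product, mem_Icc] at h2
    have h3 : ((z.1 : ℤ) * q' - z.2 * q).natAbs ≤ G * q * q' := by
      have a1 : z.1 * q' ≤ G * q * q' := Nat.mul_le_mul_right _ h2.1.2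
      have a2 : z.2 * q ≤ G * q * q' := by
        calc z.2 * q ≤ (G * q') * q := Nat.mul_le_mul_right _ h2.2.2
          _ = _ := by ring
      have a3 : ((z.1 : ℤ) * q' - z.2 * q) = ((z.1 * q' : ℕ) : ℤ) - ((z.2 * q : ℕ) : ℤ) := by push_cast; ring
      rw [a3]
      omega
    rw [mem_range]
    have : f z + 1 ≤ d * (f z + 1) := Nat.le_mul_of_pos_left _ hd0
    omega
  have h1 : ∀ z ∈ S, volume.real (A G δ (q, z.1) ∩ A G δ (q', z.2)) ≤ ga α β (h * ((f z : ℝ) + 1)) := by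
    intro z hz
    refine (vol_inter hα0 hβ0).trans (le_of_eq ?_)
    congr 1
    have e1 : (z.1 : ℝ) / (G * q) - z.2 / (G * q') = (((z.1 : ℤ) * q' - z.2 * q : ℤ) : ℝ) / (G * q * q') := by
      push_cast; field_simp
    rw [e1, abs_div, abs_of_pos (show (0:ℝ) < G * q * q' by positivity), ← Int.cast_abs, Int.abs_eq_natAbs,
      hfz z hz, hh]
    push_cast
    ring
  calc ∑ z ∈ S, volume.real (A G δ (q, z.1) ∩ A G δ (q', z.2))
      ≤ ∑ z ∈ S, ga α β (h * ((f z : ℝ) + 1)) := sum_le_sum h1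
    _ = ∑ n ∈ range (G * q * q'), ∑ z ∈ S with f z = n, ga α β (h * ((f z : ℝ) + 1)) :=
        (sum_fiberwise_of_maps_to hlt _).symm
    _ = ∑ n ∈ range (G * q * q'), (#{z ∈ S | f z = n} : ℝ) * ga α β (h * ((n : ℝ) + 1)) := by
        refine sum_congr rfl fun n _ => ?_
        rw [sum_congr rfl (g := fun _ => ga α β (h * ((n : ℝ) + 1))), sum_const, nsmul_eq_mul]
        intro z hz
        rw [(mem_filter.1 hz).2]
    _ ≤ ∑ n ∈ range (G * q * q'), (2 * (G * d) : ℝ) * ga α β (h * ((n : ℝ) + 1)) := by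
        refine sum_le_sum fun n _ => ?_
        refine mul_le_mul_of_nonneg_right ?_ (ga_nonneg hα0 hβ0)
        have hsub : {z ∈ S | f z = n} ⊆
            {z ∈ Icc 1 (G * q) ×ˢ Icc 1 (G * q') | (z.1 : ℤ) * q' - z.2 * q = ((d * (n + 1) : ℕ) : ℤ)} ∪
            {z ∈ Icc 1 (G * q) ×ˢ Icc 1 (G * q') | (z.1 : ℤ) * q' - z.2 * q = -((d * (n + 1) : ℕ) : ℤ)} := by
          intro z hz
          rw [mem_filter] at hz
          have h2 := hfz z hz.1
          rw [hz.2] at h2
          have h3 := (mem_filter.1 hz.1).1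
          rw [mem_union, mem_filter, mem_filter]
          rcases Int.natAbs_eq ((z.1 : ℤ) * q' - z.2 * q) with h4 | h4
          · left; exact ⟨h3, by rw [h4, h2]⟩
          · right; exact ⟨h3, by rw [h4, h2]⟩
        have h5 := (card_le_card hsub).trans (card_union_le _ _)
        have h6 := h5.trans (add_le_add (card_sol hq _) (card_sol hq _))
        have : (#{z ∈ S | f z = n} : ℝ) ≤ ((G * d + G * d : ℕ) : ℝ) := by exact_mod_cast h6
        push_cast at this
        linarith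
    _ = (2 * (G * d) / h) * ∑ n ∈ range (G * q * q'), h * ga α β (h * ((n : ℝ) + 1)) := by
        rw [mul_sum]
        refine sum_congr rfl fun n _ => ?_
        field_simp
    _ ≤ (2 * (G * d) / h) * (2 * α * β) :=
        mul_le_mul_of_nonneg_left (sum_ga hα0 hβ0 hh0.le _) (by positivity)
    _ = 4 * δ ^ 2 / (q * q') := by
        rw [hh, hα, hβ]
        field_simp
        ring

end Pool.Agent.V8H52.LD
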