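import Pool.Agent.V8H52.LD.B

/-!
# First and second moment of the number of fractions
-/

set_option autoImplicit false

namespace Pool.Agent.V8H52.LD

open Finset MeasureTheory

/-- the pairs `(q, p)` with `q ≤ Q`, `1 ≤ p ≤ G q` -/
def pr (G Q : ℕ) : Finset (ℕ × ℕ) := {z ∈ Icc 1 Q ×ˢ Icc 1 (G * Q) | z.2 ≤ G * z.1}

lemma mem_pr {G Q : ℕ} (z : ℕ × ℕ) : z ∈ pr G Q ↔ z.1 ∈ Icc 1 Q ∧ z.2 ∈ Icc 1 (G * z.1) := by
  unfold pr
  simp only [mem_filter, mem_product, mem_Icc]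
  constructor
  · rintro ⟨⟨h1, h2⟩, h3⟩; exact ⟨h1, h2.1, h3⟩
  · rintro ⟨h1, h2⟩; exact ⟨⟨h1, h2.1, h2.2.trans (Nat.mul_le_mul_left _ h1.2)⟩, h2.2⟩

lemma sum_pr {G Q : ℕ} (f : ℕ × ℕ → ℝ) :
    ∑ z ∈ pr G Q, f z = ∑ q ∈ Icc 1 Q, ∑ p ∈ Icc 1 (G * q), f (q, p) :=
  sum_finset_product _ _ (fun q => Icc 1 (G * q)) mem_pr

/-- the pairs with bounded gcd -/
def prK (G Q K : ℕ) : Finset (ℕ × ℕ) := {z ∈ pr G Q | Nat.gcd z.1 z.2 ≤ K}

/-- the harmonic sum -/
noncomputable def HH (Q : ℕ) : ℝ := ∑ q ∈ Icc 1 Q, 1 / (q : ℝ)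

lemma HH_nonneg (Q : ℕ) : 0 ≤ HH Q := sum_nonneg fun _ _ => by positivity

/-- the counting function -/
noncomputable def NN (G Q K : ℕ) (δ x : ℝ) : ℝ := ∑ z ∈ prK G Q K, (A G δ z).indicator (fun _ => (1 : ℝ)) x

/-- Lebesgue measure on the unit interval -/
noncomputable def mu : Measure ℝ := volume.restrict (Set.Icc 0 1)

instance : IsProbabilityMeasure mu := ⟨by simp [mu]⟩

lemma mu_real_le (S : Set ℝ) (hS : MeasurableSet S) (hf : volume S ≠ ⊤) : mu.real S ≤ volume.real S := by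
  unfold mu Measure.real
  exact ENNReal.toReal_mono hf (Measure.restrict_apply_le _ _)

lemma A_fin (G : ℕ) (δ : ℝ) (z : ℕ × ℕ) : volume (A G δ z) ≠ ⊤ := by
  unfold A; rw [Real.volume_Icc]; exact ENNReal.ofReal_ne_top

lemma integrable_ind (S : Set ℝ) (hS : MeasurableSet S) :
    Integrable (S.indicator (fun _ => (1 : ℝ))) mu := (integrable_const 1).indicator hS

lemma integral_ind (S : Set ℝ) (hS : MeasurableSet S) :
    ∫ x, S.indicator (fun _ => (1 : ℝ)) x ∂mu = mu.real S := by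
  rw [integral_indicator_const _ hS]; simp

lemma integrable_NN (G Q K : ℕ) (δ : ℝ) : Integrable (NN G Q K δ) mu :=
  integrable_finsetSum _ fun z _ => integrable_ind _ (measurableSet_A G δ z)

lemma integral_NN (G Q K : ℕ) (δ : ℝ) :
    ∫ x, NN G Q K δ x ∂mu = ∑ z ∈ prK G Q K, mu.real (A G δ z) := by
  unfold NN
  rw [integral_finsetSum _ fun z _ => integrable_ind _ (measurableSet_A G δ z)]
  exact sum_congr rfl fun z _ => integral_ind _ (measurableSet_A G δ z)

lemma sum_vol_A {G Q : ℕ} {δ : ℝ} (hG : 0 < G) (hδ : 0 ≤ δ) :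
    ∑ z ∈ pr G Q, volume.real (A G δ z) = 2 * δ * HH Q := by
  rw [sum_pr, HH, mul_sum]
  refine sum_congr rfl fun q hq => ?_
  have hq0 : (0 : ℝ) < q := by exact_mod_cast (mem_Icc.1 hq).1
  have hG0 : (0 : ℝ) < G := by exact_mod_cast hG
  simp only [vol_A hδ]
  rw [sum_const, Nat.card_Icc, nsmul_eq_mul]
  push_cast [Nat.add_sub_cancel]
  field_simp

lemma first_upper {G Q K : ℕ} {δ : ℝ} (hG : 0 < G) (hδ : 0 ≤ δ) :
    ∫ x, NN G Q K δ x ∂mu ≤ 2 * δ * HH Q := by
  rw [integral_NN, ← sum_vol_A hG hδ]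
  calc ∑ z ∈ prK G Q K, mu.real (A G δ z) ≤ ∑ z ∈ prK G Q K, volume.real (A G δ z) :=
        sum_le_sum fun z _ => mu_real_le _ (measurableSet_A _ _ _) (A_fin _ _ _)
    _ ≤ _ := sum_le_sum_of_subset_of_nonneg (filter_subset _ _) fun _ _ _ => measureReal_nonneg

lemma card_same {G Q K : ℕ} (z : ℕ × ℕ) (hz : z ∈ pr G Q) :
    #{w ∈ prK G Q K | z.2 * w.1 = w.2 * z.1} ≤ K := by
  have hc : #(Icc 1 K) = K := by simp
  refine le_of_le_of_eq ?_ hc
  have hz1 : 0 < z.1 ∧ 0 < z.2 := by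
    have := (mem_pr z).1 hz; simp only [mem_Icc] at this; omega
  apply card_le_card_of_injOn (fun w => Nat.gcd w.1 w.2)
  · intro w hw
    simp only [coe_filter, Set.mem_ofPred_eq] at hw
    have h1 := mem_filter.1 hw.1
    have h2 := (mem_pr w).1 h1.1
    simp only [coe_Icc, Set.mem_Icc]
    exact ⟨Nat.gcd_pos_of_pos_left _ (mem_Icc.1 h2.1).1, h1.2⟩
  · intro w hw v hv hwv
    simp only [coe_filter, Set.mem_ofPred_eq] at hw hv
    simp only at hwv
    have hw2 := (mem_pr w).1 (mem_filter.1 hw.1).1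
    have hv2 := (mem_pr v).1 (mem_filter.1 hv.1).1
    simp only [mem_Icc] at hw2 hv2
    have hc1 : w.1 * v.2 = w.2 * v.1 := by
      have : (w.1 * v.2) * (z.1 * z.2) = (w.2 * v.1) * (z.1 * z.2) := by
        calc (w.1 * v.2) * (z.1 * z.2) = (z.2 * w.1) * (v.2 * z.1) := by ring
          _ = (w.2 * z.1) * (z.2 * v.1) := by rw [hw.2, ← hv.2]
          _ = _ := by ring
      exact Nat.eq_of_mul_eq_mul_right (Nat.mul_pos hz1.1 hz1.2) this
    set m := Nat.gcd w.1 w.2 with hm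
    have hm0 : 0 < m := Nat.gcd_pos_of_pos_left _ hw2.1.1
    obtain ⟨a, ha⟩ : m ∣ w.1 := Nat.gcd_dvd_left _ _
    obtain ⟨b, hb⟩ : m ∣ w.2 := Nat.gcd_dvd_right _ _
    obtain ⟨a', ha'⟩ : m ∣ v.1 := by rw [hwv]; exact Nat.gcd_dvd_left _ _
    obtain ⟨b', hb'⟩ : m ∣ v.2 := by rw [hwv]; exact Nat.gcd_dvd_right _ _
    have c1 : Nat.Coprime a b := by
      have h1 : m * Nat.gcd a b = m * 1 := by
        rw [← Nat.gcd_mul_left, ← ha, ← hb, mul_one]
      exact Nat.eq_of_mul_eq_mul_left hm0 h1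
    have c2 : Nat.Coprime a' b' := by
      have h1 : m * Nat.gcd a' b' = m * 1 := by
        rw [← Nat.gcd_mul_left, ← ha', ← hb', mul_one, hwv]
      exact Nat.eq_of_mul_eq_mul_left hm0 h1
    have c3 : a * b' = b * a' := by
      have : (m * m) * (a * b') = (m * m) * (b * a') := by
        rw [ha, hb, ha', hb'] at hc1
        linarith
      exact Nat.eq_of_mul_eq_mul_left (Nat.mul_pos hm0 hm0) this
    have d1 : a ∣ a' := by
      have : a ∣ b * a' := ⟨b', c3.symm⟩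
      exact c1.dvd_of_dvd_mul_left this
    have d2 : a' ∣ a := by
      have : a' ∣ a * b' := ⟨b, by rw [c3]; ring⟩
      exact c2.dvd_of_dvd_mul_right this
    have e1 : a = a' := Nat.dvd_antisymm d1 d2
    have ha0 : 0 < a := by
      rcases Nat.eq_zero_or_pos a with h | h
      · rw [h, mul_zero] at ha; omega
      · exact h
    have e2 : b = b' := by
      rw [← e1] at c3
      have : a * b' = a * b := by rw [c3]; ring
      exact (Nat.eq_of_mul_eq_mul_left ha0 this).symm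
    exact Prod.ext (by rw [ha, ha', e1]) (by rw [hb, hb', e2])

/-- the pairs of different fractions -/
lemma pairs_upper {G Q : ℕ} {δ : ℝ} (hG : 0 < G) (hδ : 0 ≤ δ) (R : ℕ → ℕ → Prop) [∀ a b, Decidable (R a b)] :
    ∑ z ∈ pr G Q, ∑ w ∈ pr G Q with z.2 * w.1 ≠ w.2 * z.1 ∧ R z.1 w.1, volume.real (A G δ z ∩ A G δ w) ≤
      ∑ q ∈ Icc 1 Q, ∑ q' ∈ Icc 1 Q with R q q', 4 * δ ^ 2 / (q * q') := by
  have e1 : ∑ z ∈ pr G Q, ∑ w ∈ pr G Q with z.2 * w.1 ≠ w.2 * z.1 ∧ R z.1 w.1,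
      volume.real (A G δ z ∩ A G δ w) = ∑ q ∈ Icc 1 Q, ∑ q' ∈ Icc 1 Q with R q q',
      ∑ z ∈ Icc 1 (G * q) ×ˢ Icc 1 (G * q') with z.1 * q' ≠ z.2 * q,
      volume.real (A G δ (q, z.1) ∩ A G δ (q', z.2)) := by
    simp only [sum_filter]
    rw [sum_pr]
    refine sum_congr rfl fun q _ => ?_
    rw [sum_congr rfl (fun p _ => sum_pr _), sum_comm]
    refine sum_congr rfl fun q' _ => ?_
    rw [sum_product]
    by_cases hR : R q q'
    · simp only [hR, and_true, if_true]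
    · simp only [hR, and_false, if_false, sum_const_zero]
  rw [e1]
  refine sum_le_sum fun q hq => sum_le_sum fun q' hq' => ?_
  exact pair_bound hG (mem_Icc.1 hq).1 (mem_Icc.1 (mem_filter.1 hq').1).1 hδ

lemma second_upper {G Q K : ℕ} {δ : ℝ} (hG : 0 < G) (hδ : 0 ≤ δ) :
    Integrable (fun x => NN G Q K δ x ^ 2) mu ∧
    ∫ x, NN G Q K δ x ^ 2 ∂mu ≤ K * (2 * δ * HH Q) + (2 * δ * HH Q) ^ 2 := by
  classical
  have hsq : ∀ x, NN G Q K δ x ^ 2 = ∑ z ∈ prK G Q K, ∑ w ∈ prK G Q K,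
      (A G δ z ∩ A G δ w).indicator (fun _ => (1 : ℝ)) x := by
    intro x
    unfold NN
    rw [sq, sum_mul_sum]
    refine sum_congr rfl fun z _ => sum_congr rfl fun w _ => ?_
    simp only [Set.indicator, Set.mem_inter_iff]
    by_cases h1 : x ∈ A G δ z <;> by_cases h2 : x ∈ A G δ w <;> simp [h1, h2]
  have hms : ∀ z w, MeasurableSet (A G δ z ∩ A G δ w) := fun z w =>
    (measurableSet_A G δ z).inter (measurableSet_A G δ w)
  have hint : Integrable (fun x => NN G Q K δ x ^ 2) mu := by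
    have : (fun x => NN G Q K δ x ^ 2) = fun x => ∑ z ∈ prK G Q K, ∑ w ∈ prK G Q K,
      (A G δ z ∩ A G δ w).indicator (fun _ => (1 : ℝ)) x := funext hsq
    rw [this]
    exact integrable_finsetSum _ fun z _ => integrable_finsetSum _ fun w _ => integrable_ind _ (hms z w)
  refine ⟨hint, ?_⟩
  have hpt : ∀ x, NN G Q K δ x ^ 2 ≤ K * NN G Q K δ x +
      ∑ z ∈ pr G Q, ∑ w ∈ pr G Q with z.2 * w.1 ≠ w.2 * z.1 ∧ True,
        (A G δ z ∩ A G δ w).indicator (fun _ => (1 : ℝ)) x := by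
    intro x
    have hnn : ∀ z w, (0 : ℝ) ≤ (A G δ z ∩ A G δ w).indicator (fun _ => (1 : ℝ)) x := fun z w =>
      Set.indicator_nonneg (fun _ _ => zero_le_one) _
    rw [hsq]
    have h1 : ∀ z ∈ prK G Q K, ∑ w ∈ prK G Q K, (A G δ z ∩ A G δ w).indicator (fun _ => (1 : ℝ)) x ≤
        K * (A G δ z).indicator (fun _ => (1 : ℝ)) x + ∑ w ∈ pr G Q with z.2 * w.1 ≠ w.2 * z.1 ∧ True,
        (A G δ z ∩ A G δ w).indicator (fun _ => (1 : ℝ)) x := by
      intro z hz
      rw [← sum_filter_add_sum_filter_not (prK G Q K) (fun w => z.2 * w.1 = w.2 * z.1)]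
      apply add_le_add
      · calc ∑ w ∈ prK G Q K with z.2 * w.1 = w.2 * z.1, (A G δ z ∩ A G δ w).indicator (fun _ => (1 : ℝ)) x
            ≤ ∑ w ∈ prK G Q K with z.2 * w.1 = w.2 * z.1, (A G δ z).indicator (fun _ => (1 : ℝ)) x := by
              refine sum_le_sum fun w _ => ?_
              exact Set.indicator_le_indicator_of_subset Set.inter_subset_left (fun _ => zero_le_one) x
          _ ≤ _ := by
              rw [sum_const, nsmul_eq_mul]
              apply mul_le_mul_of_nonneg_right _ (Set.indicator_nonneg (fun _ _ => zero_le_one) _)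
              exact_mod_cast card_same z (mem_filter.1 hz).1
      · apply sum_le_sum_of_subset_of_nonneg
        · intro w hw
          rw [mem_filter] at hw ⊢
          exact ⟨(mem_filter.1 hw.1).1, hw.2, trivial⟩
        · intro w _ _; exact hnn z w
    calc _ ≤ ∑ z ∈ prK G Q K, (K * (A G δ z).indicator (fun _ => (1 : ℝ)) x +
          ∑ w ∈ pr G Q with z.2 * w.1 ≠ w.2 * z.1 ∧ True,
          (A G δ z ∩ A G δ w).indicator (fun _ => (1 : ℝ)) x) := sum_le_sum h1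
      _ = K * NN G Q K δ x + ∑ z ∈ prK G Q K, ∑ w ∈ pr G Q with z.2 * w.1 ≠ w.2 * z.1 ∧ True,
          (A G δ z ∩ A G δ w).indicator (fun _ => (1 : ℝ)) x := by
          rw [sum_add_distrib, ← mul_sum]; rfl
      _ ≤ _ := by
          have := sum_le_sum_of_subset_of_nonneg (s := prK G Q K) (t := pr G Q) (f := fun z =>
            ∑ w ∈ pr G Q with z.2 * w.1 ≠ w.2 * z.1 ∧ True,
            (A G δ z ∩ A G δ w).indicator (fun _ => (1 : ℝ)) x) (filter_subset _ _)
            fun z _ _ => sum_nonneg fun w _ => hnn z w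
          linarith
  have hi2 : Integrable (fun x => ∑ z ∈ pr G Q, ∑ w ∈ pr G Q with z.2 * w.1 ≠ w.2 * z.1 ∧ True,
        (A G δ z ∩ A G δ w).indicator (fun _ => (1 : ℝ)) x) mu :=
    integrable_finsetSum _ fun z _ => integrable_finsetSum _ fun w _ => integrable_ind _ (hms z w)
  calc ∫ x, NN G Q K δ x ^ 2 ∂mu ≤ ∫ x, (K * NN G Q K δ x +
      ∑ z ∈ pr G Q, ∑ w ∈ pr G Q with z.2 * w.1 ≠ w.2 * z.1 ∧ True,
        (A G δ z ∩ A G δ w).indicator (fun _ => (1 : ℝ)) x) ∂mu :=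
        integral_mono hint (((integrable_NN G Q K δ).const_mul _).add hi2) hpt
    _ = K * ∫ x, NN G Q K δ x ∂mu + ∑ z ∈ pr G Q, ∑ w ∈ pr G Q with z.2 * w.1 ≠ w.2 * z.1 ∧ True,
        mu.real (A G δ z ∩ A G δ w) := by
        rw [integral_add ((integrable_NN G Q K δ).const_mul _) hi2, integral_const_mul,
          integral_finsetSum _ fun z _ => integrable_finsetSum _ fun w _ => integrable_ind _ (hms z w)]
        congr 1
        refine sum_congr rfl fun z _ => ?_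
        rw [integral_finsetSum _ fun w _ => integrable_ind _ (hms z w)]
        exact sum_congr rfl fun w _ => integral_ind _ (hms z w)
    _ ≤ K * (2 * δ * HH Q) + ∑ z ∈ pr G Q, ∑ w ∈ pr G Q with z.2 * w.1 ≠ w.2 * z.1 ∧ True,
        volume.real (A G δ z ∩ A G δ w) := by
        apply add_le_add
        · exact mul_le_mul_of_nonneg_left (first_upper hG hδ) (by positivity)
        · refine sum_le_sum fun z _ => sum_le_sum fun w _ => mu_real_le _ (hms z w) ?_
          exact ne_top_of_le_ne_top (A_fin G δ z) (measure_mono Set.inter_subset_left)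
    _ ≤ K * (2 * δ * HH Q) + (2 * δ * HH Q) ^ 2 := by
        apply add_le_add le_rfl
        refine (pairs_upper hG hδ (fun _ _ => True)).trans (le_of_eq ?_)
        simp only [filter_true]
        unfold HH
        rw [mul_sum, sq (∑ i ∈ Icc 1 Q, 2 * δ * (1 / (i : ℝ))), sum_mul_sum]
        refine sum_congr rfl fun q _ => sum_congr rfl fun q' _ => ?_
        ring

end Pool.Agent.V8H52.LD
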