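import Pool.Agent.V8H52.LD.C

/-!
# First moment from below, deviation
-/

set_option autoImplicit false

namespace Pool.Agent.V8H52.LD

open Finset MeasureTheory

lemma sum_inv_dvd {m Q : ℕ} (hm : 0 < m) :
    ∑ q ∈ Icc 1 Q with m ∣ q, 1 / (q : ℝ) ≤ HH Q / m := by
  classical
  have hm' : (0 : ℝ) < m := by exact_mod_cast hm
  have e1 : ∑ q ∈ Icc 1 Q with m ∣ q, 1 / (q : ℝ) =
      ∑ q ∈ Icc 1 Q with m ∣ q, (1 / (m : ℝ)) * (1 / ((q / m : ℕ) : ℝ)) := by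
    refine sum_congr rfl fun q hq => ?_
    obtain ⟨k, rfl⟩ := (mem_filter.1 hq).2
    rw [Nat.mul_div_cancel_left _ hm]
    push_cast
    rw [one_div_mul_one_div]
  rw [e1, ← mul_sum]
  have e2 : ∑ q ∈ Icc 1 Q with m ∣ q, (1 / ((q / m : ℕ) : ℝ)) =
      ∑ j ∈ ({q ∈ Icc 1 Q | m ∣ q}).image (fun q => q / m), 1 / (j : ℝ) := by
    rw [sum_image]
    intro a ha b hb hab
    simp only [coe_filter, Set.mem_ofPred_eq] at ha hb
    simp only at hab
    rw [← Nat.div_mul_cancel ha.2, ← Nat.div_mul_cancel hb.2, hab]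
  rw [e2, HH, div_eq_mul_one_div (∑ q ∈ Icc 1 Q, 1 / (q : ℝ)) (m : ℝ), mul_comm (1 / (m : ℝ))]
  apply mul_le_mul_of_nonneg_right _ (by positivity)
  apply sum_le_sum_of_subset_of_nonneg
  · intro j hj
    rw [mem_image] at hj
    obtain ⟨q, hq, rfl⟩ := hj
    rw [mem_filter, mem_Icc] at hq
    rw [mem_Icc]
    refine ⟨?_, (Nat.div_le_self _ _).trans hq.1.2⟩
    exact Nat.div_pos (Nat.le_of_dvd hq.1.1 hq.2) hm
  · intro _ _ _; positivity

lemma sum_gcd {G Q K : ℕ} {δ : ℝ} (hG : 0 < G) (hδ : 0 ≤ δ) (hK : 0 < K) :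
    ∑ z ∈ pr G Q with ¬ Nat.gcd z.1 z.2 ≤ K, 2 * δ / (G * (z.1 : ℝ) ^ 2) ≤ 2 * δ * HH Q / K := by
  classical
  have hG0 : (0 : ℝ) < G := by exact_mod_cast hG
  have hK0 : (0 : ℝ) < K := by exact_mod_cast hK
  set f : ℕ × ℕ → ℝ := fun z => 2 * δ / (G * (z.1 : ℝ) ^ 2) with hf
  have hf0 : ∀ z, 0 ≤ f z := fun z => by simp only [hf]; positivity
  have hmaps : ∀ z ∈ {z ∈ pr G Q | ¬ Nat.gcd z.1 z.2 ≤ K}, Nat.gcd z.1 z.2 ∈ Ioc K Q := by
    intro z hz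
    rw [mem_filter] at hz
    have h1 := (mem_pr z).1 hz.1
    simp only [mem_Icc] at h1
    rw [mem_Ioc]
    exact ⟨by omega, (Nat.gcd_le_left _ h1.1.1).trans h1.1.2⟩
  have hone : ∀ m ∈ Ioc K Q, ∑ z ∈ {z ∈ pr G Q | ¬ Nat.gcd z.1 z.2 ≤ K} with Nat.gcd z.1 z.2 = m, f z ≤
      2 * δ * HH Q * ((m : ℝ) ^ 2)⁻¹ := by
    intro m hm
    have hm0 : 0 < m := by have := (mem_Ioc.1 hm).1; omega
    have hm' : (0 : ℝ) < m := by exact_mod_cast hm0
    calc ∑ z ∈ {z ∈ pr G Q | ¬ Nat.gcd z.1 z.2 ≤ K} with Nat.gcd z.1 z.2 = m, f z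
        ≤ ∑ z ∈ pr G Q with m ∣ z.1 ∧ m ∣ z.2, f z := by
          apply sum_le_sum_of_subset_of_nonneg
          · intro z hz
            rw [mem_filter, mem_filter] at hz
            rw [mem_filter]
            exact ⟨hz.1.1, by rw [← hz.2]; exact Nat.gcd_dvd_left _ _, by rw [← hz.2]; exact Nat.gcd_dvd_right _ _⟩
          · intro z _ _; exact hf0 z
      _ = ∑ q ∈ Icc 1 Q with m ∣ q, ∑ p ∈ Icc 1 (G * q) with m ∣ p, f (q, p) := by
          rw [sum_filter, sum_pr, sum_filter]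
          refine sum_congr rfl fun q _ => ?_
          by_cases hq : m ∣ q
          · simp only [hq, true_and, if_true, sum_filter]
          · simp only [hq, false_and, if_false, sum_const_zero]
      _ ≤ ∑ q ∈ Icc 1 Q with m ∣ q, (2 * δ / m) * (1 / (q : ℝ)) := by
          refine sum_le_sum fun q hq => ?_
          have hq0 : (0 : ℝ) < q := by exact_mod_cast (mem_Icc.1 (mem_filter.1 hq).1).1
          simp only [hf]
          rw [sum_const, nsmul_eq_mul]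
          have hc : (#{p ∈ Icc 1 (G * q) | m ∣ p} : ℝ) ≤ (G * q : ℝ) / m := by
            have h1 : #{p ∈ Icc 1 (G * q) | m ∣ p} = G * q / m := by
              rw [← Nat.Ioc_filter_dvd_card_eq_div]
              rfl
            rw [h1]
            have := @Nat.cast_div_le ℝ _ _ _ (G * q) m
            push_cast at this
            exact this
          calc (#{p ∈ Icc 1 (G * q) | m ∣ p} : ℝ) * (2 * δ / (G * (q : ℝ) ^ 2))
              ≤ ((G * q : ℝ) / m) * (2 * δ / (G * (q : ℝ) ^ 2)) :=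
                mul_le_mul_of_nonneg_right hc (by positivity)
            _ = (2 * δ / m) * (1 / (q : ℝ)) := by field_simp
      _ ≤ (2 * δ / m) * (HH Q / m) := by
          rw [← mul_sum]
          exact mul_le_mul_of_nonneg_left (sum_inv_dvd hm0) (by positivity)
      _ = 2 * δ * HH Q * ((m : ℝ) ^ 2)⁻¹ := by field_simp
  calc ∑ z ∈ pr G Q with ¬ Nat.gcd z.1 z.2 ≤ K, f z
      = ∑ m ∈ Ioc K Q, ∑ z ∈ {z ∈ pr G Q | ¬ Nat.gcd z.1 z.2 ≤ K} with Nat.gcd z.1 z.2 = m, f z :=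
        (sum_fiberwise_of_maps_to hmaps f).symm
    _ ≤ ∑ m ∈ Ioc K Q, 2 * δ * HH Q * ((m : ℝ) ^ 2)⁻¹ := sum_le_sum hone
    _ = 2 * δ * HH Q * ∑ m ∈ Ioc K Q, ((m : ℝ) ^ 2)⁻¹ := by rw [mul_sum]
    _ ≤ 2 * δ * HH Q * (K : ℝ)⁻¹ := by
        apply mul_le_mul_of_nonneg_left _ (mul_nonneg (by positivity) (HH_nonneg Q))
        rcases le_or_gt K Q with h | h
        · have := sum_Ioc_inv_sq_le_sub (α := ℝ) hK.ne' h
          have h2 : (0 : ℝ) ≤ (Q : ℝ)⁻¹ := by positivity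
          linarith
        · rw [Ioc_eq_empty_of_le h.le, sum_empty]; positivity
    _ = 2 * δ * HH Q / K := by rw [div_eq_mul_inv]

lemma sum_last {G Q : ℕ} {δ : ℝ} (hG : 0 < G) (hδ : 0 ≤ δ) :
    ∑ z ∈ pr G Q with ¬ z.2 < G * z.1, 2 * δ / (G * (z.1 : ℝ) ^ 2) ≤ 4 * δ := by
  classical
  have hG0 : (1 : ℝ) ≤ G := by exact_mod_cast hG
  rw [sum_filter, sum_pr]
  have h1 : ∀ q ∈ Icc 1 Q, ∑ p ∈ Icc 1 (G * q), (if ¬ p < G * q then 2 * δ / (G * (q : ℝ) ^ 2) else 0) ≤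
      2 * δ * ((q : ℝ) ^ 2)⁻¹ := by
    intro q hq
    have hq0 : (0 : ℝ) < q := by exact_mod_cast (mem_Icc.1 hq).1
    rw [← sum_filter, sum_const, nsmul_eq_mul]
    have hc : #{p ∈ Icc 1 (G * q) | ¬ p < G * q} ≤ 1 := by
      rw [card_le_one]
      intro a ha b hb
      simp only [mem_filter, mem_Icc] at ha hb
      omega
    calc (#{p ∈ Icc 1 (G * q) | ¬ p < G * q} : ℝ) * (2 * δ / (G * (q : ℝ) ^ 2))
        ≤ 1 * (2 * δ / (1 * (q : ℝ) ^ 2)) := by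
          apply mul_le_mul
          · exact_mod_cast hc
          · apply div_le_div_of_nonneg_left (by positivity) (by positivity)
            exact mul_le_mul_of_nonneg_right hG0 (by positivity)
          · positivity
          · norm_num
      _ = _ := by field_simp
  refine (sum_le_sum h1).trans ?_
  rw [← mul_sum]
  have h2 : ∑ q ∈ Icc 1 Q, ((q : ℝ) ^ 2)⁻¹ ≤ 2 := by
    have := sum_Ioo_inv_sq_le (α := ℝ) 0 (Q + 1)
    have e : Ioo 0 (Q + 1) = Icc 1 Q := by ext x; simp only [mem_Ioo, mem_Icc]; omega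
    rw [e] at this
    simpa using this
  nlinarith

lemma mu_A {G : ℕ} {δ : ℝ} (hG : 0 < G) (hδ : 0 ≤ δ) (hδ' : δ ≤ 1) (z : ℕ × ℕ) (h1 : 0 < z.1) (h2 : 0 < z.2)
    (h3 : z.2 < G * z.1) : mu.real (A G δ z) = 2 * δ / (G * (z.1 : ℝ) ^ 2) := by
  have hG0 : (0 : ℝ) < G := by exact_mod_cast hG
  have hz1 : (1 : ℝ) ≤ z.1 := by exact_mod_cast h1
  have hz2 : (1 : ℝ) ≤ z.2 := by exact_mod_cast h2
  have hz3 : (z.2 : ℝ) + 1 ≤ G * z.1 := by exact_mod_cast h3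
  rw [← vol_A hδ z]
  have hsub : A G δ z ⊆ Set.Icc 0 1 := by
    intro x hx
    unfold A at hx
    have e1 : (z.2 : ℝ) / (G * z.1) - δ / (G * z.1 ^ 2) = (z.2 * z.1 - δ) / (G * z.1 ^ 2) := by
      field_simp
    have e2 : (z.2 : ℝ) / (G * z.1) + δ / (G * z.1 ^ 2) = (z.2 * z.1 + δ) / (G * z.1 ^ 2) := by
      field_simp
    rw [Set.mem_Icc, e1, e2] at hx
    have hpos : (0 : ℝ) < G * z.1 ^ 2 := by positivity
    constructor
    · refine le_trans ?_ hx.1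
      apply div_nonneg _ hpos.le
      nlinarith
    · refine hx.2.trans ?_
      rw [div_le_one hpos]
      nlinarith
  unfold mu Measure.real
  rw [Measure.restrict_apply (measurableSet_A _ _ _), Set.inter_eq_self_of_subset_left hsub]

lemma first_lower {G Q K : ℕ} {δ : ℝ} (hG : 0 < G) (hδ : 0 ≤ δ) (hδ' : δ ≤ 1) (hK : 0 < K) :
    2 * δ * HH Q - 4 * δ - 2 * δ * HH Q / K ≤ ∫ x, NN G Q K δ x ∂mu := by
  classical
  rw [integral_NN]
  set f : ℕ × ℕ → ℝ := fun z => 2 * δ / (G * (z.1 : ℝ) ^ 2) with hf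
  have hf0 : ∀ z, 0 ≤ f z := fun z => by simp only [hf]; positivity
  have h1 : ∑ z ∈ pr G Q with (Nat.gcd z.1 z.2 ≤ K ∧ z.2 < G * z.1), f z ≤ ∑ z ∈ prK G Q K, mu.real (A G δ z) := by
    calc _ = ∑ z ∈ pr G Q with (Nat.gcd z.1 z.2 ≤ K ∧ z.2 < G * z.1), mu.real (A G δ z) := by
          refine sum_congr rfl fun z hz => ?_
          rw [mem_filter, mem_pr] at hz
          simp only [mem_Icc] at hz
          exact (mu_A hG hδ hδ' z hz.1.1.1 hz.1.2.1 hz.2.2).symm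
      _ ≤ _ := by
          apply sum_le_sum_of_subset_of_nonneg
          · intro z hz
            rw [mem_filter] at hz
            exact mem_filter.2 ⟨hz.1, hz.2.1⟩
          · intro _ _ _; exact measureReal_nonneg
  have h2 : ∑ z ∈ pr G Q, f z = 2 * δ * HH Q := by
    rw [← sum_vol_A hG hδ]
    exact sum_congr rfl fun z _ => (vol_A hδ z).symm
  have h3 := sum_filter_add_sum_filter_not (pr G Q) (fun z => Nat.gcd z.1 z.2 ≤ K ∧ z.2 < G * z.1) f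
  have h4 : ∑ z ∈ pr G Q with ¬ (Nat.gcd z.1 z.2 ≤ K ∧ z.2 < G * z.1), f z ≤
      ∑ z ∈ pr G Q with ¬ Nat.gcd z.1 z.2 ≤ K, f z + ∑ z ∈ pr G Q with ¬ z.2 < G * z.1, f z := by
    have e : {z ∈ pr G Q | ¬ (Nat.gcd z.1 z.2 ≤ K ∧ z.2 < G * z.1)} ⊆
        {z ∈ pr G Q | ¬ Nat.gcd z.1 z.2 ≤ K} ∪ {z ∈ pr G Q | ¬ z.2 < G * z.1} := by
      intro z hz
      rw [mem_filter] at hz
      rw [mem_union, mem_filter, mem_filter]
      by_cases h : Nat.gcd z.1 z.2 ≤ K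
      · right; exact ⟨hz.1, fun h' => hz.2 ⟨h, h'⟩⟩
      · left; exact ⟨hz.1, h⟩
    refine (sum_le_sum_of_subset_of_nonneg e fun z _ _ => hf0 z).trans ?_
    rw [← sum_union_inter]
    have : 0 ≤ ∑ z ∈ {z ∈ pr G Q | ¬ Nat.gcd z.1 z.2 ≤ K} ∩ {z ∈ pr G Q | ¬ z.2 < G * z.1}, f z :=
      sum_nonneg fun z _ => hf0 z
    linarith
  have h5 : ∑ z ∈ pr G Q with ¬ Nat.gcd z.1 z.2 ≤ K, f z ≤ 2 * δ * HH Q / K := sum_gcd hG hδ hK
  have h6 : ∑ z ∈ pr G Q with ¬ z.2 < G * z.1, f z ≤ 4 * δ := sum_last hG hδ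
  linarith

lemma dev {G Q K : ℕ} {δ M : ℝ} (hG : 0 < G) (hδ : 0 ≤ δ) (hδ' : δ ≤ 1) (hK : 0 < K) (hM : M = 2 * δ * HH Q) :
    Integrable (fun x => (NN G Q K δ x - M) ^ 2) mu ∧
    ∫ x, (NN G Q K δ x - M) ^ 2 ∂mu ≤ K * M + 2 * M * (4 * δ + M / K) := by
  obtain ⟨hi, h2⟩ := second_upper (G := G) (Q := Q) (K := K) hG hδ
  have h1 := first_lower (Q := Q) hG hδ hδ' hK
  have hM0 : 0 ≤ M := by rw [hM]; exact mul_nonneg (by positivity) (HH_nonneg Q)
  rw [← hM] at h1 h2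
  have hN := integrable_NN G Q K δ
  have e : (fun x => (NN G Q K δ x - M) ^ 2) = fun x => (NN G Q K δ x ^ 2 - 2 * M * NN G Q K δ x) + M ^ 2 := by
    funext x; ring
  have hi1 : Integrable (fun x => NN G Q K δ x ^ 2 - 2 * M * NN G Q K δ x) mu := hi.sub (hN.const_mul _)
  rw [e]
  refine ⟨hi1.add (integrable_const _), ?_⟩
  rw [integral_add hi1 (integrable_const _), integral_sub hi (hN.const_mul _), integral_const_mul, integral_const]
  have hu : mu.real Set.univ = 1 := probReal_univ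
  rw [hu, one_smul]
  have h3 := mul_le_mul_of_nonneg_left h1 (show 0 ≤ 2 * M by linarith)
  have h4 : 2 * M * (M - 4 * δ - M / K) = 2 * M ^ 2 - 2 * M * (4 * δ + M / K) := by ring
  linarith

end Pool.Agent.V8H52.LD
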