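import Pool.Agent.V8H52.LD.D

/-!
# The exceptional function
-/

set_option autoImplicit false

namespace Pool.Agent.V8H52.LD

open Finset MeasureTheory

/-- `q |q G x - p|` -/
noncomputable def tt (G : ℕ) (x : ℝ) (z : ℕ × ℕ) : ℝ := z.1 * |z.1 * (G * x) - z.2|

lemma geom_sum_le {δ t : ℝ} (hδ : 0 < δ) (ht : 0 < t) (n : ℕ) :
    ∑ i ∈ range n, (if t ≤ δ / 2 ^ i then 2 ^ i / δ else 0) ≤ 2 / t := by
  induction n with
  | zero => simp; positivity
  | succ n ih =>
    by_cases h : t ≤ δ / 2 ^ n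
    · have h1 : ∑ i ∈ range (n + 1), (if t ≤ δ / 2 ^ i then 2 ^ i / δ else 0) ≤ ∑ i ∈ range (n + 1), 2 ^ i / δ := by
        refine sum_le_sum fun i _ => ?_
        split_ifs
        · exact le_rfl
        · positivity
      refine h1.trans ?_
      rw [← sum_div]
      have h2 : ∑ i ∈ range (n + 1), (2 : ℝ) ^ i = 2 ^ (n + 1) - 1 := by
        rw [geom_sum_eq (by norm_num)]; norm_num
      rw [h2, div_le_div_iff₀ hδ ht]
      rw [le_div_iff₀ (by positivity)] at h
      have : t * 2 ^ (n + 1) = 2 * (t * 2 ^ n) := by ring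
      nlinarith
    · rw [sum_range_succ, if_neg h, add_zero]; exact ih

open Classical in
/-- close pairs of different fractions -/
noncomputable def CP (G Q : ℕ) (S δ x : ℝ) : ℝ :=
  ∑ z ∈ pr G Q, ∑ w ∈ pr G Q with z.2 * w.1 ≠ w.2 * z.1 ∧ (z.1 ≤ w.1 ∧ (w.1 : ℝ) ≤ S * z.1),
    (A G δ z ∩ A G δ w).indicator (fun _ => (1 : ℝ)) x

/-- the deviation -/
noncomputable def YY (G Q K I : ℕ) (ρ δ x : ℝ) : ℝ :=
  ∑ i ∈ range I, (NN G Q K (δ / 2 ^ i) x - 2 * (δ / 2 ^ i) * HH Q) ^ 2 / (4 * ρ * (δ / 2 ^ i) ^ 2 * HH Q)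

/-- the exceptional function -/
noncomputable def WW (G Q K I : ℕ) (S ρ τ B δ x : ℝ) : ℝ :=
  NN G Q K τ x + NN G Q K δ x / B + CP G Q S δ x + YY G Q K I ρ δ x * (2 / (I * HH Q))

lemma CP_int {G Q : ℕ} {S δ : ℝ} (hG : 0 < G) (hδ : 0 ≤ δ) (hS : 1 ≤ S) :
    Integrable (CP G Q S δ) mu ∧ ∫ x, CP G Q S δ x ∂mu ≤ 4 * δ ^ 2 * (HH Q * (1 + Real.log S)) := by
  classical
  have hms : ∀ z w, MeasurableSet (A G δ z ∩ A G δ w) := fun z w =>
    (measurableSet_A G δ z).inter (measurableSet_A G δ w)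
  have hi : Integrable (CP G Q S δ) mu :=
    integrable_finsetSum _ fun z _ => integrable_finsetSum _ fun w _ => integrable_ind _ (hms z w)
  refine ⟨hi, ?_⟩
  unfold CP
  rw [integral_finsetSum _ fun z _ => integrable_finsetSum _ fun w _ => integrable_ind _ (hms z w)]
  calc ∑ z ∈ pr G Q, ∫ x, ∑ w ∈ pr G Q with z.2 * w.1 ≠ w.2 * z.1 ∧ (z.1 ≤ w.1 ∧ (w.1 : ℝ) ≤ S * z.1),
        (A G δ z ∩ A G δ w).indicator (fun _ => (1 : ℝ)) x ∂mu
      = ∑ z ∈ pr G Q, ∑ w ∈ pr G Q with z.2 * w.1 ≠ w.2 * z.1 ∧ (z.1 ≤ w.1 ∧ (w.1 : ℝ) ≤ S * z.1),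
        mu.real (A G δ z ∩ A G δ w) := by
        refine sum_congr rfl fun z _ => ?_
        rw [integral_finsetSum _ fun w _ => integrable_ind _ (hms z w)]
        exact sum_congr rfl fun w _ => integral_ind _ (hms z w)
    _ ≤ ∑ z ∈ pr G Q, ∑ w ∈ pr G Q with z.2 * w.1 ≠ w.2 * z.1 ∧ (z.1 ≤ w.1 ∧ (w.1 : ℝ) ≤ S * z.1),
        volume.real (A G δ z ∩ A G δ w) := by
        refine sum_le_sum fun z _ => sum_le_sum fun w _ => mu_real_le _ (hms z w) ?_
        exact ne_top_of_le_ne_top (A_fin G δ z) (measure_mono Set.inter_subset_left)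
    _ ≤ ∑ q ∈ Icc 1 Q, ∑ q' ∈ Icc 1 Q with (q ≤ q' ∧ (q' : ℝ) ≤ S * q), 4 * δ ^ 2 / (q * q') :=
        pairs_upper hG hδ (fun a b => a ≤ b ∧ (b : ℝ) ≤ S * a)
    _ ≤ ∑ q ∈ Icc 1 Q, 4 * δ ^ 2 * ((1 / (q : ℝ)) * (1 + Real.log S)) := by
        refine sum_le_sum fun q hq => ?_
        have hq0 : 0 < q := (mem_Icc.1 hq).1
        have hq1 : (0 : ℝ) < q := by exact_mod_cast hq0
        have h1 : ∑ q' ∈ Icc 1 Q with (q ≤ q' ∧ (q' : ℝ) ≤ S * q), 4 * δ ^ 2 / (q * q') =
            4 * δ ^ 2 * ((1 / (q : ℝ)) * ∑ q' ∈ Icc 1 Q with (q ≤ q' ∧ (q' : ℝ) ≤ S * q), 1 / (q' : ℝ)) := by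
          rw [mul_sum, mul_sum]
          refine sum_congr rfl fun q' _ => ?_
          rw [one_div_mul_one_div]
          ring
        rw [h1]
        apply mul_le_mul_of_nonneg_left _ (by positivity)
        apply mul_le_mul_of_nonneg_left _ (by positivity)
        set b := ⌊S * q⌋₊ with hb
        have hqb : q ≤ b := by
          rw [hb, Nat.le_floor_iff (by positivity)]
          nlinarith
        have h2 : ∑ q' ∈ Icc 1 Q with (q ≤ q' ∧ (q' : ℝ) ≤ S * q), 1 / (q' : ℝ) ≤ ∑ q' ∈ Icc q b, 1 / (q' : ℝ) := by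
          apply sum_le_sum_of_subset_of_nonneg
          · intro q' hq'
            rw [mem_filter] at hq'
            rw [mem_Icc]
            exact ⟨hq'.2.1, Nat.le_floor hq'.2.2⟩
          · intro _ _ _; positivity
        refine h2.trans ?_
        have h3 : ∀ n, q ≤ n → ∑ q' ∈ Icc q n, 1 / (q' : ℝ) ≤ 1 + Real.log (n / q) := by
          intro n hn
          induction n, hn using Nat.le_induction with
          | base =>
            rw [Icc_self, sum_singleton, div_self hq1.ne', Real.log_one, add_zero, div_le_one hq1]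
            exact_mod_cast hq0
          | succ n hn ih =>
            have hn0 : (0 : ℝ) < n := by exact_mod_cast (lt_of_lt_of_le hq0 hn)
            rw [← insert_Icc_right_eq_Icc_add_one (by omega), sum_insert (by simp)]
            have h4 : Real.log (((n + 1 : ℕ) : ℝ) / q) = Real.log (n / q) + Real.log ((n + 1) / n) := by
              rw [← Real.log_mul (by positivity) (by positivity)]
              congr 1
              push_cast
              field_simp
            have h5 : 1 - ((n + 1 : ℝ) / n)⁻¹ ≤ Real.log ((n + 1) / n) :=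
              Real.one_sub_inv_le_log_of_pos (by positivity)
            have h6 : 1 - ((n + 1 : ℝ) / n)⁻¹ = 1 / (n + 1) := by field_simp; ring
            rw [h6] at h5
            rw [h4]
            push_cast
            linarith
        refine (h3 b hqb).trans ?_
        have hb0 : (0 : ℝ) < b := by exact_mod_cast lt_of_lt_of_le hq0 hqb
        have : Real.log (b / q) ≤ Real.log S := by
          apply Real.log_le_log (by positivity)
          rw [div_le_iff₀ hq1]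
          exact Nat.floor_le (by positivity)
        linarith
    _ = 4 * δ ^ 2 * (HH Q * (1 + Real.log S)) := by
        rw [← mul_sum, ← sum_mul]; rfl

lemma WW_int {G Q K I : ℕ} {S ρ τ B δ : ℝ} (hG : 0 < G) (hδ : 0 < δ) (hδ' : δ ≤ 1 / 2) (hS : 1 ≤ S) (hτ : 0 ≤ τ)
    (hB : 0 < B) (hK : 4 ≤ K) (hI : 0 < I) (hH : 0 < HH Q) (hρ : 0 < ρ) (hρK : ρ ^ 2 * K = 4)
    (hM : ∀ i < I, (K : ℝ) ^ 2 ≤ 2 * (δ / 2 ^ i) * HH Q) :
    Integrable (WW G Q K I S ρ τ B δ) mu ∧ ∫ x, WW G Q K I S ρ τ B δ x ∂mu ≤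
      2 * τ * HH Q + 2 * δ * HH Q / B + 4 * δ ^ 2 * (HH Q * (1 + Real.log S)) + 2 * ρ := by
  have hK0 : (0 : ℝ) < K := by exact_mod_cast (by omega : 0 < K)
  have hK4 : (4 : ℝ) ≤ K := by exact_mod_cast hK
  have hI0 : (0 : ℝ) < I := by exact_mod_cast hI
  have hdi : ∀ i : ℕ, 0 < δ / 2 ^ i := fun i => by positivity
  have hdi' : ∀ i : ℕ, δ / 2 ^ i ≤ 1 / 2 := fun i => by
    refine le_trans ?_ hδ'
    exact div_le_self hδ.le (one_le_pow₀ (by norm_num))
  have hY : Integrable (YY G Q K I ρ δ) mu ∧ ∫ x, YY G Q K I ρ δ x ∂mu ≤ I * (ρ * HH Q) := by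
    have hint : ∀ i ∈ range I, Integrable (fun x => (NN G Q K (δ / 2 ^ i) x - 2 * (δ / 2 ^ i) * HH Q) ^ 2 /
        (4 * ρ * (δ / 2 ^ i) ^ 2 * HH Q)) mu := fun i _ =>
      (dev hG (hdi i).le ((hdi' i).trans (by norm_num)) (by omega) rfl).1.div_const _
    refine ⟨integrable_finsetSum _ hint, ?_⟩
    unfold YY
    rw [integral_finsetSum _ hint]
    have : ∀ i ∈ range I, ∫ x, (NN G Q K (δ / 2 ^ i) x - 2 * (δ / 2 ^ i) * HH Q) ^ 2 /
        (4 * ρ * (δ / 2 ^ i) ^ 2 * HH Q) ∂mu ≤ ρ * HH Q := by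
      intro i hi
      rw [integral_div]
      have h1 := (dev (G := G) (Q := Q) (K := K) hG (hdi i).le ((hdi' i).trans (by norm_num)) (by omega) rfl).2
      have h2 := hM i (mem_range.1 hi)
      have h3 := hdi i
      have h4 := hdi' i
      set d := δ / 2 ^ i with hd
      set M := 2 * d * HH Q with hMdef
      rw [div_le_iff₀ (by positivity)]
      refine h1.trans ?_
      have e1 : ρ * HH Q * (4 * ρ * d ^ 2 * HH Q) = ρ ^ 2 * M ^ 2 := by rw [hMdef]; ring
      rw [e1]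
      have e2 : ρ ^ 2 = 4 / K := by field_simp; linarith
      rw [e2]
      have hM0 : 0 < M := by positivity
      have e3 : 4 / (K : ℝ) * M ^ 2 - (K * M + 2 * M * (4 * d + M / K)) = M / K * (2 * M - K ^ 2 - 8 * d * K) := by
        field_simp; ring
      have h5 : 0 ≤ 2 * M - K ^ 2 - 8 * d * K := by nlinarith
      have h6 : 0 ≤ M / K * (2 * M - K ^ 2 - 8 * d * K) := mul_nonneg (by positivity) h5
      linarith
    calc _ ≤ ∑ i ∈ range I, ρ * HH Q := sum_le_sum this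
      _ = _ := by rw [sum_const, card_range, nsmul_eq_mul]
  have hC := CP_int (G := G) (Q := Q) hG hδ.le hS
  have h1 : Integrable (fun x => NN G Q K τ x + NN G Q K δ x / B) mu :=
    (integrable_NN _ _ _ _).add ((integrable_NN _ _ _ _).div_const _)
  have h2 : Integrable (fun x => NN G Q K τ x + NN G Q K δ x / B + CP G Q S δ x) mu := h1.add hC.1
  have h3 : Integrable (fun x => YY G Q K I ρ δ x * (2 / (I * HH Q))) mu := hY.1.mul_const _
  refine ⟨h2.add h3, ?_⟩
  unfold WW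
  rw [integral_add h2 h3, integral_add h1 hC.1, integral_add (integrable_NN _ _ _ _)
    ((integrable_NN _ _ _ _).div_const _), integral_div, integral_mul_const]
  have a1 := first_upper (G := G) (Q := Q) (K := K) hG hτ
  have a2 := first_upper (G := G) (Q := Q) (K := K) hG hδ.le
  have a3 := hC.2
  have a4 := mul_le_mul_of_nonneg_right hY.2 (show 0 ≤ 2 / (I * HH Q) by positivity)
  have a5 : (I : ℝ) * (ρ * HH Q) * (2 / (I * HH Q)) = 2 * ρ := by field_simp
  have a6 := div_le_div_of_nonneg_right a2 hB.le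
  linarith

end Pool.Agent.V8H52.LD
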