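import Pool.Agent.V8H52.LD.E

/-!
# What happens outside the exceptional set
-/

set_option autoImplicit false

namespace Pool.Agent.V8H52.LD

open Finset MeasureTheory

open Classical in
/-- the good fractions -/
noncomputable def V0 (G Q : ℕ) (δ x : ℝ) : Finset (ℕ × ℕ) := {z ∈ pr G Q | Nat.gcd z.1 z.2 = 1 ∧ tt G x z ≤ δ}

lemma mem_A' {G Q : ℕ} {δ x : ℝ} {z : ℕ × ℕ} (hG : 0 < G) (hz : z ∈ pr G Q) : x ∈ A G δ z ↔ tt G x z ≤ δ :=
  mem_A hG (mem_Icc.1 ((mem_pr z).1 hz).1).1 x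

lemma NN_nonneg (G Q K : ℕ) (δ x : ℝ) : 0 ≤ NN G Q K δ x :=
  sum_nonneg fun _ _ => Set.indicator_nonneg (fun _ _ => zero_le_one) _

lemma NN_eq {G Q K : ℕ} {δ x : ℝ} (hG : 0 < G) [DecidablePred fun z => tt G x z ≤ δ] :
    NN G Q K δ x = #{z ∈ prK G Q K | tt G x z ≤ δ} := by
  classical
  unfold NN
  rw [card_filter]
  push_cast
  refine sum_congr rfl fun z hz => ?_
  have := mem_A' (δ := δ) (x := x) hG (mem_filter.1 hz).1
  simp only [Set.indicator, this]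

lemma V0_card {G Q K : ℕ} {δ x : ℝ} (hG : 0 < G) (hK : 0 < K) : (#(V0 G Q δ x) : ℝ) ≤ NN G Q K δ x := by
  classical
  rw [NN_eq hG]
  have : V0 G Q δ x ⊆ {z ∈ prK G Q K | tt G x z ≤ δ} := by
    intro z hz
    unfold V0 at hz
    rw [mem_filter] at hz
    rw [mem_filter, prK, mem_filter]
    exact ⟨⟨hz.1, by omega⟩, hz.2.2⟩
  exact_mod_cast card_le_card this

lemma eq_of_frac {G Q : ℕ} {z w : ℕ × ℕ} (hz : z ∈ pr G Q) (hw : w ∈ pr G Q) (c1 : Nat.gcd z.1 z.2 = 1)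
    (c2 : Nat.gcd w.1 w.2 = 1) (h : z.2 * w.1 = w.2 * z.1) : z = w := by
  have hz2 := (mem_pr z).1 hz
  have hw2 := (mem_pr w).1 hw
  simp only [mem_Icc] at hz2 hw2
  have d1 : z.1 ∣ w.1 := by
    have : z.1 ∣ z.2 * w.1 := ⟨w.2, by rw [h]; ring⟩
    exact (Nat.Coprime.dvd_of_dvd_mul_left (show Nat.Coprime z.1 z.2 from c1) this)
  have d2 : w.1 ∣ z.1 := by
    have : w.1 ∣ w.2 * z.1 := ⟨z.2, by rw [← h]; ring⟩
    exact (Nat.Coprime.dvd_of_dvd_mul_left (show Nat.Coprime w.1 w.2 from c2) this)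
  have e1 := Nat.dvd_antisymm d1 d2
  rw [← e1] at h
  exact Prod.ext e1 (Nat.eq_of_mul_eq_mul_right hz2.1.1 h)

/-- reduction of a fraction -/
def red (z : ℕ × ℕ) : ℕ × ℕ := (z.1 / Nat.gcd z.1 z.2, z.2 / Nat.gcd z.1 z.2)

lemma red_mem {G Q : ℕ} {δ δ' x : ℝ} {z : ℕ × ℕ} (hz : z ∈ pr G Q) (ht : tt G x z ≤ δ') (hδ : δ' ≤ δ) :
    red z ∈ V0 G Q δ x ∧ tt G x (red z) ≤ δ' ∧ (red z).2 * z.1 = z.2 * (red z).1 := by
  classical
  have hz2 := (mem_pr z).1 hz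
  simp only [mem_Icc] at hz2
  set m := Nat.gcd z.1 z.2 with hm
  have hm0 : 0 < m := Nat.gcd_pos_of_pos_left _ hz2.1.1
  obtain ⟨a, ha⟩ : m ∣ z.1 := Nat.gcd_dvd_left _ _
  obtain ⟨b, hb⟩ : m ∣ z.2 := Nat.gcd_dvd_right _ _
  have hr : red z = (a, b) := by
    unfold red
    rw [← hm]
    conv_lhs => rw [ha, hb]
    rw [Nat.mul_div_cancel_left _ hm0, Nat.mul_div_cancel_left _ hm0]
  have c1 : Nat.gcd a b = 1 := by
    have h1 : m * Nat.gcd a b = m * 1 := by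
      rw [← Nat.gcd_mul_left, ← ha, ← hb, mul_one]
    exact Nat.eq_of_mul_eq_mul_left hm0 h1
  have ha0 : 0 < a := by
    rcases Nat.eq_zero_or_pos a with h | h
    · rw [h, mul_zero] at ha; omega
    · exact h
  have hb0 : 0 < b := by
    rcases Nat.eq_zero_or_pos b with h | h
    · rw [h, mul_zero] at hb; omega
    · exact h
  have hm1 : (1 : ℝ) ≤ m := by exact_mod_cast hm0
  have ht2 : tt G x (a, b) ≤ tt G x z := by
    unfold tt
    have e1 : (z.1 : ℝ) = m * a := by rw [ha]; push_cast; ring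
    have e2 : (z.2 : ℝ) = m * b := by rw [hb]; push_cast; ring
    rw [e1, e2]
    have e3 : (m : ℝ) * a * (G * x) - m * b = m * (a * (G * x) - b) := by ring
    rw [e3, abs_mul, abs_of_pos (show (0 : ℝ) < m by linarith)]
    have e4 : (m : ℝ) * a * (m * |(a : ℝ) * (G * x) - b|) = m ^ 2 * (a * |(a : ℝ) * (G * x) - b|) := by ring
    rw [e4]
    have h0 : 0 ≤ (a : ℝ) * |(a : ℝ) * (G * x) - b| := by positivity
    have : (1 : ℝ) ≤ m ^ 2 := one_le_pow₀ hm1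
    simp only
    nlinarith
  have hpr : (a, b) ∈ pr G Q := by
    rw [mem_pr, mem_Icc, mem_Icc]
    refine ⟨⟨ha0, ?_⟩, hb0, ?_⟩
    · have : a ≤ z.1 := by rw [ha]; exact Nat.le_mul_of_pos_left _ hm0
      exact this.trans hz2.1.2
    · have h1 := hz2.2.2
      rw [ha, hb] at h1
      have h2 : m * b ≤ m * (G * a) := by linarith
      exact Nat.le_of_mul_le_mul_left h2 hm0
  rw [hr]
  refine ⟨?_, ht2.trans ht, ?_⟩
  · unfold V0
    rw [mem_filter]
    exact ⟨hpr, c1, (ht2.trans ht).trans hδ⟩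
  · simp only
    rw [ha, hb]; ring

lemma NN_le {G Q K : ℕ} {δ δ' x : ℝ} (hG : 0 < G) (hδ : δ' ≤ δ) [∀ z, Decidable (tt G x z ≤ δ')] :
    NN G Q K δ' x ≤ K * ∑ v ∈ V0 G Q δ x, (if tt G x v ≤ δ' then (1 : ℝ) else 0) := by
  classical
  rw [NN_eq hG, ← sum_filter, sum_const, nsmul_eq_mul, mul_one]
  have h := card_le_mul_card_image_of_maps_to (s := {z ∈ prK G Q K | tt G x z ≤ δ'})
    (t := {v ∈ V0 G Q δ x | tt G x v ≤ δ'}) (f := red) (n := K) ?_ ?_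
  · exact_mod_cast h
  · intro z hz
    rw [mem_filter] at hz
    have h1 := red_mem (mem_filter.1 hz.1).1 hz.2 hδ
    exact mem_filter.2 ⟨h1.1, h1.2.1⟩
  · intro v hv
    have hv1 : v ∈ pr G Q := by
      have := (mem_filter.1 hv).1
      unfold V0 at this
      exact (mem_filter.1 this).1
    refine le_trans (card_le_card ?_) (card_same (K := K) v hv1)
    intro z hz
    rw [mem_filter, mem_filter] at hz
    have h1 := red_mem (mem_filter.1 hz.1.1).1 hz.1.2 hδ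
    rw [mem_filter]
    refine ⟨hz.1.1, ?_⟩
    rw [← hz.2]
    exact h1.2.2

lemma good_of_lt {G Q K I : ℕ} {S ρ τ B δ x : ℝ} (hG : 0 < G) (hδ : 0 < δ) (hτ : 0 < τ) (hB : 0 < B) (hK : 0 < K)
    (hI : 0 < I) (hH : 0 < HH Q) (hρ : 0 < ρ) (hρ' : ρ ≤ 1 / 2) (hW : WW G Q K I S ρ τ B δ x < 1) :
    (∀ z ∈ V0 G Q δ x, τ < tt G x z) ∧ (#(V0 G Q δ x) : ℝ) ≤ B ∧
    (∀ z ∈ V0 G Q δ x, ∀ w ∈ V0 G Q δ x, z ≠ w → z.1 ≤ w.1 → S * z.1 < w.1) ∧
    I * HH Q / (2 * K) ≤ ∑ z ∈ V0 G Q δ x, 1 / tt G x z := by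
  classical
  have hI0 : (0 : ℝ) < I := by exact_mod_cast hI
  have hK0 : (0 : ℝ) < K := by exact_mod_cast hK
  have n1 := NN_nonneg G Q K τ x
  have n2 : 0 ≤ NN G Q K δ x / B := div_nonneg (NN_nonneg G Q K δ x) hB.le
  have n3 : 0 ≤ CP G Q S δ x :=
    sum_nonneg fun _ _ => sum_nonneg fun _ _ => Set.indicator_nonneg (fun _ _ => zero_le_one) _
  have n4 : 0 ≤ YY G Q K I ρ δ x := sum_nonneg fun i _ => by positivity
  have n5 : 0 ≤ YY G Q K I ρ δ x * (2 / (I * HH Q)) := mul_nonneg n4 (by positivity)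
  unfold WW at hW
  have hmemV : ∀ z ∈ V0 G Q δ x, z ∈ pr G Q ∧ Nat.gcd z.1 z.2 = 1 ∧ tt G x z ≤ δ := fun z hz => by
    unfold V0 at hz; exact mem_filter.1 hz
  have ha : ∀ z ∈ V0 G Q δ x, τ < tt G x z := by
    intro z hz
    obtain ⟨h1, h2, h3⟩ := hmemV z hz
    by_contra hcon
    push Not at hcon
    have h4 : (1 : ℝ) ≤ NN G Q K τ x := by
      rw [NN_eq hG]
      have : 0 < #{z ∈ prK G Q K | tt G x z ≤ τ} := by
        apply card_pos.2
        exact ⟨z, mem_filter.2 ⟨mem_filter.2 ⟨h1, by omega⟩, hcon⟩⟩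
      exact_mod_cast this
    linarith
  refine ⟨ha, ?_, ?_, ?_⟩
  · have h1 : NN G Q K δ x / B < 1 := by linarith
    rw [div_lt_one hB] at h1
    exact (V0_card hG hK).trans h1.le
  · intro z hz w hw hne hle
    obtain ⟨z1, z2, z3⟩ := hmemV z hz
    obtain ⟨w1, w2, w3⟩ := hmemV w hw
    by_contra hcon
    push Not at hcon
    have h4 : (1 : ℝ) ≤ CP G Q S δ x := by
      unfold CP
      have hnn : ∀ z w, (0 : ℝ) ≤ (A G δ z ∩ A G δ w).indicator (fun _ => (1 : ℝ)) x := fun z w =>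
        Set.indicator_nonneg (fun _ _ => zero_le_one) _
      have hw4 : w ∈ {w ∈ pr G Q | z.2 * w.1 ≠ w.2 * z.1 ∧ (z.1 ≤ w.1 ∧ (w.1 : ℝ) ≤ S * z.1)} := by
        rw [mem_filter]
        exact ⟨w1, fun h => hne (eq_of_frac z1 w1 z2 w2 h), hle, hcon⟩
      have h5 : (1 : ℝ) = (A G δ z ∩ A G δ w).indicator (fun _ => (1 : ℝ)) x := by
        rw [Set.indicator_of_mem]
        exact ⟨(mem_A' hG z1).2 z3, (mem_A' hG w1).2 w3⟩
      refine h5.le.trans ?_
      refine le_trans (single_le_sum (f := fun w => (A G δ z ∩ A G δ w).indicator (fun _ => (1 : ℝ)) x)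
        (fun w _ => hnn z w) hw4) ?_
      exact single_le_sum (f := fun z => ∑ w ∈ pr G Q with z.2 * w.1 ≠ w.2 * z.1 ∧ (z.1 ≤ w.1 ∧ (w.1 : ℝ) ≤ S * z.1),
        (A G δ z ∩ A G δ w).indicator (fun _ => (1 : ℝ)) x) (fun z _ => sum_nonneg fun w _ => hnn z w) z1
    linarith
  · have hY : YY G Q K I ρ δ x ≤ I * HH Q / 2 := by
      have h1 : YY G Q K I ρ δ x * (2 / (I * HH Q)) < 1 := by linarith
      have h2 : YY G Q K I ρ δ x = YY G Q K I ρ δ x * (2 / (I * HH Q)) * (I * HH Q / 2) := by field_simp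
      rw [h2]
      nlinarith [show 0 < I * HH Q / 2 by positivity]
    have h1 : ∀ i ∈ range I, 2 * HH Q - ρ * HH Q - (NN G Q K (δ / 2 ^ i) x - 2 * (δ / 2 ^ i) * HH Q) ^ 2 /
        (4 * ρ * (δ / 2 ^ i) ^ 2 * HH Q) ≤ NN G Q K (δ / 2 ^ i) x / (δ / 2 ^ i) := by
      intro i _
      set d := δ / 2 ^ i with hd
      have hd0 : 0 < d := by positivity
      set N := NN G Q K d x
      rw [le_div_iff₀ hd0]
      have e1 : (2 * HH Q - ρ * HH Q - (N - 2 * d * HH Q) ^ 2 / (4 * ρ * d ^ 2 * HH Q)) * d =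
          2 * d * HH Q - ρ * (d * HH Q) - (N - 2 * d * HH Q) ^ 2 / (4 * ρ * (d * HH Q)) := by field_simp
      rw [e1]
      set P := d * HH Q with hP
      have hP0 : 0 < P := by positivity
      have e2 : 2 * d * HH Q = 2 * P := by rw [hP]; ring
      rw [e2]
      have h3 : (N - 2 * P) ^ 2 / (4 * ρ * P) + ρ * P + (N - 2 * P) = ((N - 2 * P) + 2 * ρ * P) ^ 2 / (4 * ρ * P) := by
        field_simp; ring
      have h4 : 0 ≤ ((N - 2 * P) + 2 * ρ * P) ^ 2 / (4 * ρ * P) := by positivity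
      linarith
    have h2 : (I : ℝ) * HH Q ≤ ∑ i ∈ range I, NN G Q K (δ / 2 ^ i) x / (δ / 2 ^ i) := by
      refine le_trans ?_ (sum_le_sum h1)
      rw [sum_sub_distrib, sum_const, card_range, nsmul_eq_mul]
      have : ∑ i ∈ range I, (NN G Q K (δ / 2 ^ i) x - 2 * (δ / 2 ^ i) * HH Q) ^ 2 /
        (4 * ρ * (δ / 2 ^ i) ^ 2 * HH Q) = YY G Q K I ρ δ x := rfl
      rw [this]
      have : (I : ℝ) * (2 * HH Q - ρ * HH Q) ≥ I * (3 / 2 * HH Q) := by
        apply mul_le_mul_of_nonneg_left _ hI0.le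
        nlinarith
      linarith
    have h3 : ∑ i ∈ range I, NN G Q K (δ / 2 ^ i) x / (δ / 2 ^ i) ≤
        K * ∑ v ∈ V0 G Q δ x, 2 / tt G x v := by
      calc _ ≤ ∑ i ∈ range I, K * ∑ v ∈ V0 G Q δ x, (if tt G x v ≤ δ / 2 ^ i then 2 ^ i / δ else 0) := by
            refine sum_le_sum fun i _ => ?_
            have hd0 : 0 < δ / 2 ^ i := by positivity
            rw [div_le_iff₀ hd0]
            refine (NN_le hG (div_le_self hδ.le (one_le_pow₀ (by norm_num)))).trans (le_of_eq ?_)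
            rw [mul_assoc, sum_mul]
            congr 1
            refine sum_congr rfl fun v _ => ?_
            split_ifs
            · field_simp
            · simp
        _ = K * ∑ v ∈ V0 G Q δ x, ∑ i ∈ range I, (if tt G x v ≤ δ / 2 ^ i then 2 ^ i / δ else 0) := by
            rw [← mul_sum, sum_comm]
        _ ≤ _ := by
            apply mul_le_mul_of_nonneg_left _ hK0.le
            exact sum_le_sum fun v hv => geom_sum_le hδ (hτ.trans (ha v hv)) I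
    have h4 : ∑ v ∈ V0 G Q δ x, 2 / tt G x v = 2 * ∑ v ∈ V0 G Q δ x, 1 / tt G x v := by
      rw [mul_sum]; refine sum_congr rfl fun v _ => by ring
    rw [h4] at h3
    rw [div_le_iff₀ (by positivity)]
    linarith

end Pool.Agent.V8H52.LD
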