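import Pool.Agent.V8H52.LD.F
import Pool.Agent.V8H55.LD.Stm

/-!
# `RealStm 1`: the pointwise part
-/

set_option autoImplicit false
set_option maxHeartbeats 400000

namespace Pool.Agent.V8H52.LD

open Finset MeasureTheory Pool.Agent.V8H55.LD

lemma HH_eq (Q : ℕ) : HH Q = ((harmonic Q : ℚ) : ℝ) := by
  unfold HH
  rw [harmonic_eq_sum_Icc]
  push_cast
  exact sum_congr rfl fun i _ => one_div _

lemma HH_bounds {L : ℝ} (hL : 0 ≤ L) : L / 10 ≤ HH ⌊Real.exp (L / 10)⌋₊ ∧ HH ⌊Real.exp (L / 10)⌋₊ ≤ 1 + L / 10 := by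
  set Q := ⌊Real.exp (L / 10)⌋₊ with hQ
  rw [HH_eq]
  have hQ1 : 1 ≤ Q := by
    rw [hQ, Nat.one_le_floor_iff]
    exact Real.one_le_exp (by positivity)
  have hQ0 : (0 : ℝ) < Q := by exact_mod_cast hQ1
  constructor
  · refine le_trans ?_ (log_add_one_le_harmonic Q)
    rw [Real.le_log_iff_exp_le (by positivity)]
    push_cast
    exact (Nat.lt_floor_add_one _).le
  · refine (harmonic_le_one_add_log Q).trans ?_
    have : Real.log Q ≤ L / 10 := by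
      rw [Real.log_le_iff_le_exp hQ0]
      exact Nat.floor_le (Real.exp_pos _).le
    linarith

lemma WW_nonneg {G Q K I : ℕ} {S ρ τ B δ x : ℝ} (hB : 0 < B) (hρ : 0 < ρ) :
    0 ≤ WW G Q K I S ρ τ B δ x := by
  have hH := HH_nonneg Q
  have n1 := NN_nonneg G Q K τ x
  have n2 : 0 ≤ NN G Q K δ x / B := div_nonneg (NN_nonneg G Q K δ x) hB.le
  have n3 : 0 ≤ CP G Q S δ x :=
    sum_nonneg fun _ _ => sum_nonneg fun _ _ => Set.indicator_nonneg (fun _ _ => zero_le_one) _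
  have n4 : 0 ≤ YY G Q K I ρ δ x := sum_nonneg fun i _ => by positivity
  unfold WW
  have n5 : 0 ≤ YY G Q K I ρ δ x * (2 / (I * HH Q)) := mul_nonneg n4 (by positivity)
  linarith

/-- the integer vector of a fraction -/
def FF (G : ℕ) (z : ℕ × ℕ) : (Fin 1 → ℤ) × ℤ := ((fun _ => ((G * z.1 : ℕ) : ℤ)), (z.2 : ℤ))

lemma FF_inj {G : ℕ} (hG : 0 < G) : Function.Injective (FF G) := by
  intro z w hzw
  unfold FF at hzw
  rw [Prod.mk.injEq] at hzw
  have h1 := congrFun hzw.1 0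
  have h2 : G * z.1 = G * w.1 := by exact_mod_cast h1
  exact Prod.ext (Nat.eq_of_mul_eq_mul_left hG h2) (by exact_mod_cast hzw.2)

lemma del_FF {G : ℕ} (x : Fin 1 → ℝ) {z : ℕ × ℕ} (hz : 0 < z.1) : del x (FF G z) = tt G (x 0) z / z.1 := by
  have hz1 : (0 : ℝ) < z.1 := by exact_mod_cast hz
  unfold del tt FF
  rw [mul_div_cancel_left₀ _ hz1.ne', Fin.sum_univ_one]
  push_cast
  congr 1
  ring

lemma prd_FF {G : ℕ} (z : ℕ × ℕ) : prd (FF G z) = G * z.1 := by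
  unfold prd FF
  rw [Fin.prod_univ_one]
  push_cast
  exact abs_of_nonneg (by positivity)

lemma dp_FF {G : ℕ} (x : Fin 1 → ℝ) {z : ℕ × ℕ} (hz : 0 < z.1) :
    del x (FF G z) * prd (FF G z) = G * tt G (x 0) z := by
  have hz1 : (0 : ℝ) < z.1 := by exact_mod_cast hz
  rw [del_FF x hz, prd_FF]
  field_simp

lemma abs_FF {G : ℕ} (z : ℕ × ℕ) (i : Fin 1) : |(((FF G z).1 i : ℤ) : ℝ)| = G * z.1 := by
  unfold FF
  push_cast
  exact abs_of_nonneg (by positivity)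

lemma exp_ge {u : ℝ} (hu : 2 ≤ u) : u ^ 12 ≤ Real.exp (u ^ 10) := by
  have h0 : 0 ≤ u ^ 10 := by positivity
  have h5 : (u ^ 10) ^ 2 / 2 ≤ Real.exp (u ^ 10) := by
    have := Real.quadratic_le_exp_of_nonneg h0
    linarith
  refine le_trans ?_ h5
  have h6 : (2 : ℝ) ≤ u ^ 8 := by
    calc (2 : ℝ) ≤ u := by linarith
      _ = u ^ 1 := by ring
      _ ≤ u ^ 8 := pow_le_pow_right₀ (by linarith) (by norm_num)
  have h7 : (u ^ 10) ^ 2 / 2 = u ^ 12 * (u ^ 8 / 2) := by ring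
  rw [h7]
  have h8 : 0 < u ^ 12 := by positivity
  have h9 : 1 ≤ u ^ 8 / 2 := by linarith
  exact le_mul_of_one_le_right h8.le h9

lemma sep_aux {u S δ τ : ℝ} {G Q : ℕ} {y : ℝ} (hu : 2 ≤ u) (hδ : δ = 1 / u ^ 18) (hτ : τ = 1 / u ^ 30)
    (hS : S = Real.exp (3 * u ^ 10)) (c1 : ∀ z ∈ V0 G Q δ y, τ < tt G y z)
    (c3 : ∀ z ∈ V0 G Q δ y, ∀ w ∈ V0 G Q δ y, z ≠ w → z.1 ≤ w.1 → S * z.1 < w.1)
    (hmem : ∀ z ∈ V0 G Q δ y, 0 < z.1 ∧ z.1 ≤ Q ∧ tt G y z ≤ δ)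
    (z : ℕ × ℕ) (hz : z ∈ V0 G Q δ y) (w : ℕ × ℕ) (hw : w ∈ V0 G Q δ y) (hne : z ≠ w) (hle : z.1 ≤ w.1) :
    Real.exp (2 * u ^ 10) * (z.1 : ℝ) ≤ w.1 ∧
    Real.exp (2 * u ^ 10) * (tt G y w / w.1) ≤ tt G y z / z.1 := by
  have hu0 : 0 < u := by linarith
  have h1 := c3 z hz w hw hne hle
  have hz1 : (0 : ℝ) < z.1 := by exact_mod_cast (hmem z hz).1
  have hw1 : (0 : ℝ) < w.1 := by exact_mod_cast (hmem w hw).1
  have hSe : S = Real.exp (2 * u ^ 10) * Real.exp (u ^ 10) := by rw [hS, ← Real.exp_add]; congr 1; ring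
  have he1 : (1 : ℝ) ≤ Real.exp (u ^ 10) := Real.one_le_exp (by positivity)
  constructor
  · refine le_trans ?_ h1.le
    apply mul_le_mul_of_nonneg_right _ hz1.le
    rw [hSe]
    exact le_mul_of_one_le_right (Real.exp_pos _).le he1
  · rw [mul_div_assoc', div_le_div_iff₀ hw1 hz1]
    have h2 := (hmem w hw).2.2
    have h3 := c1 z hz
    have hτ0 : 0 < τ := by rw [hτ]; positivity
    have h8 : tt G y w ≤ Real.exp (u ^ 10) * tt G y z := by
      calc tt G y w ≤ δ := h2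
        _ = u ^ 12 * τ := by rw [hδ, hτ]; field_simp
        _ ≤ Real.exp (u ^ 10) * tt G y z := mul_le_mul (exp_ge hu) h3.le hτ0.le (Real.exp_pos _).le
    calc Real.exp (2 * u ^ 10) * tt G y w * z.1
        ≤ Real.exp (2 * u ^ 10) * (Real.exp (u ^ 10) * tt G y z) * z.1 := by
          apply mul_le_mul_of_nonneg_right _ hz1.le
          exact mul_le_mul_of_nonneg_left h8 (Real.exp_pos _).le
      _ = tt G y z * (S * z.1) := by rw [hSe]; ring
      _ ≤ tt G y z * w.1 := mul_le_mul_of_nonneg_left h1.le (hτ0.trans h3).le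

lemma pointwise {u S δ τ L : ℝ} {G Q K I g h Z : ℕ} {α : Fin 1 → ℤ} {x : Fin 1 → ℝ}
    (hu : 2 ≤ u) (hδ : δ = 1 / u ^ 18) (hδ2 : δ ≤ 1 / 2) (hτ : τ = 1 / u ^ 30) (hS : S = Real.exp (3 * u ^ 10))
    (huL : u ^ 20 = L) (hhalf : L ^ ((1 : ℝ) / 2) = u ^ 10) (hquart : L ^ ((1 : ℝ) / 4) = u ^ 5)
    (hG : 0 < G) (hg : g = h * G) (hh0 : 0 < h) (hhZ : h ≤ Z) (hZu : 2 * (Z : ℝ) ≤ u)
    (hhα : (h : ℤ) ∣ α 0) (hgL : (g : ℝ) ≤ Real.exp (L / (100 * (1 : ℕ)))) (hQ : Q = ⌊Real.exp (L / 10)⌋₊) (hK : 0 < K)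
    (hI1 : Real.log u / 2 ≤ I) (hH1 : L / 10 ≤ HH Q)
    (c1 : ∀ z ∈ V0 G Q δ (x 0), τ < tt G (x 0) z) (c2 : (#(V0 G Q δ (x 0)) : ℝ) ≤ u ^ 5)
    (c3 : ∀ z ∈ V0 G Q δ (x 0), ∀ w ∈ V0 G Q δ (x 0), z ≠ w → z.1 ≤ w.1 → S * z.1 < w.1)
    (c4 : I * HH Q / (2 * K) ≤ ∑ z ∈ V0 G Q δ (x 0), 1 / tt G (x 0) z) :
    ∃ V : Finset ((Fin 1 → ℤ) × ℤ), GoodR (1 / (800 * K)) L g α x V := by
  classical
  have hu0 : 0 < u := by linarith
  have hu1 : 1 ≤ u := by linarith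
  have hG0 : (0 : ℝ) < G := by exact_mod_cast hG
  have hK0 : (0 : ℝ) < K := by exact_mod_cast hK
  have hgr : (g : ℝ) = h * G := by rw [hg]; push_cast; ring
  have hh1 : (1 : ℝ) ≤ h := by exact_mod_cast hh0
  have hhZr : (h : ℝ) ≤ Z := by exact_mod_cast hhZ
  have hGg : (G : ℝ) ≤ g := by rw [hgr]; exact le_mul_of_one_le_left hG0.le hh1
  have hτ0 : 0 < τ := by rw [hτ]; positivity
  have hmem : ∀ z ∈ V0 G Q δ (x 0), 0 < z.1 ∧ z.1 ≤ Q ∧ tt G (x 0) z ≤ δ := by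
    intro z hz
    unfold V0 at hz
    rw [mem_filter, mem_pr, mem_Icc] at hz
    exact ⟨hz.1.1.1, hz.1.1.2, hz.2.2⟩
  have hL0 : 0 < L := by rw [← huL]; positivity
  refine ⟨(V0 G Q δ (x 0)).image (FF G), ?_, ?_, ?_, ?_, ?_, ?_, ?_, ?_, ?_⟩
  · intro w hw
    obtain ⟨z, hz, rfl⟩ := mem_image.1 hw
    obtain ⟨a, ha⟩ := hhα
    rw [Fin.sum_univ_one]
    unfold FF
    refine ⟨z.1 * a, ?_⟩
    rw [ha, hg]
    push_cast
    ring
  · intro w hw i
    obtain ⟨z, hz, rfl⟩ := mem_image.1 hw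
    have := Nat.mul_pos hG (hmem z hz).1
    show ((G * z.1 : ℕ) : ℤ) ≠ 0
    exact_mod_cast this.ne'
  · intro w hw i
    obtain ⟨z, hz, rfl⟩ := mem_image.1 hw
    rw [abs_FF]
    have h1 : (z.1 : ℝ) ≤ Real.exp (L / 10) := by
      have h2 : (z.1 : ℝ) ≤ Q := by exact_mod_cast (hmem z hz).2.1
      refine h2.trans ?_
      rw [hQ]
      exact Nat.floor_le (Real.exp_pos _).le
    calc (G : ℝ) * z.1 ≤ Real.exp (L / (100 * (1 : ℕ))) * Real.exp (L / 10) :=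
          mul_le_mul (hGg.trans hgL) h1 (by positivity) (Real.exp_pos _).le
      _ = Real.exp (L / (100 * (1 : ℕ)) + L / 10) := by rw [Real.exp_add]
      _ ≤ _ := by
          apply Real.exp_le_exp.2
          push_cast
          linarith
  · intro w hw
    obtain ⟨z, hz, rfl⟩ := mem_image.1 hw
    have h1 := (c1 z hz).le
    rw [dp_FF x (hmem z hz).1, hgr, div_le_iff₀ (by positivity)]
    have h2 : L ^ (1 + 1) = u ^ 30 * u ^ 10 := by rw [← huL]; ring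
    rw [h2]
    have h3 : 1 ≤ tt G (x 0) z * u ^ 30 := by
      rw [hτ, div_le_iff₀ (by positivity)] at h1; exact h1
    have h4 : 2 * (h : ℝ) ≤ u ^ 10 := by
      calc 2 * (h : ℝ) ≤ u := by linarith
        _ = u ^ 1 := by ring
        _ ≤ u ^ 10 := pow_le_pow_right₀ hu1 (by norm_num)
    calc 2 * (h * G : ℝ) = G * (1 * (2 * h)) := by ring
      _ ≤ G * ((tt G (x 0) z * u ^ 30) * u ^ 10) := by
          apply mul_le_mul_of_nonneg_left _ hG0.le
          exact mul_le_mul h3 h4 (by positivity) (by linarith)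
      _ = _ := by ring
  · intro w hw
    obtain ⟨z, hz, rfl⟩ := mem_image.1 hw
    rw [dp_FF x (hmem z hz).1]
    have h1 := (hmem z hz).2.2
    have h2 : 0 ≤ tt G (x 0) z := (hτ0.trans (c1 z hz)).le
    calc (G : ℝ) * tt G (x 0) z ≤ g * (1 / 2) :=
          mul_le_mul hGg (h1.trans hδ2) h2 (by positivity)
      _ = _ := by ring
  · intro w hw w' hw' hne i
    obtain ⟨z, hz, rfl⟩ := mem_image.1 hw
    obtain ⟨z', hz', rfl⟩ := mem_image.1 hw'
    have hne' : z ≠ z' := fun h => hne (by rw [h])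
    rw [hhalf, abs_FF, abs_FF]
    rcases le_total z.1 z'.1 with hle | hle
    · left
      have := (sep_aux hu hδ hτ hS c1 c3 hmem z hz z' hz' hne' hle).1
      calc Real.exp (2 * u ^ 10) * (G * z.1) = G * (Real.exp (2 * u ^ 10) * z.1) := by ring
        _ ≤ G * z'.1 := mul_le_mul_of_nonneg_left this hG0.le
    · right
      have := (sep_aux hu hδ hτ hS c1 c3 hmem z' hz' z hz (Ne.symm hne') hle).1
      calc Real.exp (2 * u ^ 10) * (G * z'.1) = G * (Real.exp (2 * u ^ 10) * z'.1) := by ring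
        _ ≤ G * z.1 := mul_le_mul_of_nonneg_left this hG0.le
  · intro w hw w' hw' hne
    obtain ⟨z, hz, rfl⟩ := mem_image.1 hw
    obtain ⟨z', hz', rfl⟩ := mem_image.1 hw'
    have hne' : z ≠ z' := fun h => hne (by rw [h])
    rw [hhalf, del_FF x (hmem z hz).1, del_FF x (hmem z' hz').1]
    rcases le_total z.1 z'.1 with hle | hle
    · right; exact (sep_aux hu hδ hτ hS c1 c3 hmem z hz z' hz' hne' hle).2
    · left; exact (sep_aux hu hδ hτ hS c1 c3 hmem z' hz' z hz (Ne.symm hne') hle).2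
  · rw [hquart]
    refine le_trans ?_ c2
    exact_mod_cast card_image_le
  · rw [sum_image (fun a _ b _ h => FF_inj hG h)]
    have h1 : ∀ z ∈ V0 G Q δ (x 0), 1 / tt G (x 0) z ≤ g / (del x (FF G z) * prd (FF G z)) := by
      intro z hz
      rw [dp_FF x (hmem z hz).1]
      have h2 : 0 < tt G (x 0) z := hτ0.trans (c1 z hz)
      rw [div_le_div_iff₀ h2 (by positivity)]
      rw [one_mul]
      exact mul_le_mul_of_nonneg_right hGg h2.le
    refine le_trans (le_trans ?_ c4) (sum_le_sum h1)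
    have hlogL : Real.log L = 20 * Real.log u := by rw [← huL, Real.log_pow]; norm_num
    rw [hlogL, pow_one]
    have hlogu : 0 ≤ Real.log u := Real.log_nonneg hu1
    calc 1 / (800 * (K : ℝ)) * (L * (20 * Real.log u)) = (Real.log u / 2) * (L / 10) / (2 * K) := by
          field_simp; ring
      _ ≤ I * HH Q / (2 * K) := by
          apply div_le_div_of_nonneg_right _ (by positivity)
          exact mul_le_mul hI1 hH1 (by positivity) (by positivity)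

end Pool.Agent.V8H52.LD
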